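import Pool.Agent.Lib.MP_68391b_lc.Gen.GAcVec

/-! Anticoncentration for the jet, gradient bounds. -/

set_option linter.unusedSectionVars false

namespace Pool.Agent.KWG

open MeasureTheory ProbabilityTheory MvPolynomial Pool.Agent.KWI

variable {ι : Type} [Fintype ι] [DecidableEq ι]

theorem jac_hs_zero (k : ℕ) : HS k (0 : MvPolynomial ι ℝ) = 0 := by
  induction k with
  | zero => simp [HS]
  | succ k ih => simp [HS, ih]

theorem jac_hs_big (k : ℕ) (p : MvPolynomial ι ℝ) (hp : p.totalDegree < k) : HS k p = 0 := by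
  induction k generalizing p with
  | zero => omega
  | succ k ih =>
    simp only [HS]
    refine Finset.sum_eq_zero fun j _ => ?_
    rcases Nat.eq_zero_or_pos p.totalDegree with h | h
    · have h1 : p = C (coeff 0 p) := totalDegree_eq_zero_iff_eq_C.mp h
      have h2 : pderiv j p = 0 := by rw [h1]; exact pderiv_C
      rw [h2]
      exact jac_hs_zero k
    · refine ih _ ?_
      have := pderiv_deg j p
      omega

theorem jac_hs_one (p : MvPolynomial ι ℝ) (x : ι → ℝ) :
    eval x (HS 1 p) = ∑ j, (eval x (pderiv j p)) ^ 2 := by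
  simp [HS]

theorem jac_family {d : ℕ} {ρ : ℝ} (hρ : 0 < ρ) (p : MvPolynomial ι ℝ)
    (hp : p.totalDegree ≤ d) :
    ∃ (κ : Type) (_ : Fintype κ) (_ : DecidableEq κ) (q : κ → MvPolynomial ι ℝ),
      (∀ l, (q l).totalDegree ≤ d) ∧
        (p ^ 2 + VP d ρ p = ∑ l, (q l) ^ 2) ∧
        (∀ x, ∑ l, ∑ j, (eval x (pderiv j (q l))) ^ 2 = (1 / ρ ^ 2) * eval x (VP d ρ p)) := by
  choose κ hf hd q hdeg h1 h2 using fun i : Fin (d + 1) => hs_family (ι := ι) (i : ℕ) p
  refine ⟨Σ i, κ i, inferInstance, Classical.decEq _,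
    fun l => C (ρ ^ (l.1 : ℕ)) * q l.1 l.2, ?_, ?_, ?_⟩
  · intro l
    refine (totalDegree_mul _ _).trans ?_
    rw [totalDegree_C, zero_add]
    exact (hdeg l.1 l.2).trans hp
  · rw [Fintype.sum_sigma]
    have e1 : ∀ i : Fin (d + 1), ∑ l : κ i, (C (ρ ^ (i : ℕ)) * q i l) ^ 2 =
        C (ρ ^ (2 * (i : ℕ))) * HS (i : ℕ) p := by
      intro i
      rw [h1 i, Finset.mul_sum]
      refine Finset.sum_congr rfl fun l _ => ?_
      rw [mul_pow, ← C_pow, ← pow_mul, Nat.mul_comm]
    rw [Finset.sum_congr rfl fun i _ => e1 i,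
      Fin.sum_univ_eq_sum_range (fun i => C (ρ ^ (2 * i)) * HS i p) (d + 1),
      Finset.sum_range_succ']
    simp only [VP, HS, mul_zero, pow_zero, C_1, one_mul]
    ring
  · intro x
    rw [Fintype.sum_sigma]
    have e1 : ∀ i : Fin (d + 1), ∑ l : κ i, ∑ j,
        (eval x (pderiv j (C (ρ ^ (i : ℕ)) * q i l))) ^ 2 =
        ρ ^ (2 * (i : ℕ)) * eval x (HS ((i : ℕ) + 1) p) := by
      intro i
      rw [h2 i]
      simp only [map_sum, map_pow, Finset.mul_sum]
      refine Finset.sum_congr rfl fun l _ => Finset.sum_congr rfl fun j _ => ?_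
      have : pderiv j (C (ρ ^ (i : ℕ)) * q i l) = C (ρ ^ (i : ℕ)) * pderiv j (q i l) := by
        rw [pderiv_C_mul]
      rw [← C_pow, this, map_mul, eval_C, mul_pow, ← pow_mul, Nat.mul_comm]
    rw [Finset.sum_congr rfl fun i _ => e1 i,
      Fin.sum_univ_eq_sum_range (fun i => ρ ^ (2 * i) * eval x (HS (i + 1) p)) (d + 1),
      Finset.sum_range_succ, jac_hs_big (d + 1) p (by omega)]
    simp only [VP, map_zero, mul_zero, add_zero, map_sum, map_mul, eval_C, Finset.mul_sum]
    refine Finset.sum_congr rfl fun i _ => ?_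
    have hρ0 : ρ ≠ 0 := hρ.ne'
    have : ρ ^ (2 * (i + 1)) = ρ ^ (2 * i) * ρ ^ 2 := by rw [Nat.mul_add, pow_add]
    rw [this]
    field_simp

theorem p_grad {d : ℕ} {ρ : ℝ} (hρ : 0 < ρ) (p : MvPolynomial ι ℝ) (hp : p.totalDegree ≤ d)
    (x : ι → ℝ) :
    ∑ j, (eval x (pderiv j p)) ^ 2 ≤ (1 / ρ ^ 2) * eval x (VP d ρ p) := by
  rw [← jac_hs_one]
  rcases Nat.eq_zero_or_pos d with h | h
  · subst h
    rw [jac_hs_big 1 p (by omega), map_zero]
    exact mul_nonneg (by positivity) (vp_nonneg _ _ _ _)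
  · have h1 : ρ ^ 2 * eval x (HS 1 p) ≤ eval x (VP d ρ p) := by
      simp only [VP, map_sum, map_mul, eval_C]
      have := Finset.single_le_sum
        (f := fun i : ℕ => ρ ^ (2 * (i + 1)) * eval x (HS (i + 1) p))
        (fun i _ => mul_nonneg (by positivity) (hs_nonneg (i + 1) p x))
        (Finset.mem_range.mpr h)
      simpa using this
    rw [div_mul_eq_mul_div, one_mul, le_div_iff₀ (by positivity)]
    linarith

theorem ap_grad {d : ℕ} {ρ : ℝ} (hρ : 0 < ρ) (v : ℝ) (p : MvPolynomial ι ℝ)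
    (hp : p.totalDegree ≤ d) (x : ι → ℝ) :
    ∑ j, (eval x (pderiv j (AP d ρ v p))) ^ 2 ≤
      (4 / ρ ^ 2) * ((eval x p) ^ 2 + eval x (VP d ρ p)) * eval x (VP d ρ p) := by
  obtain ⟨κ, _, _, q, hdeg, h1, h2⟩ := jac_family (ι := ι) hρ p hp
  have e1 : ∀ j : ι, eval x (pderiv j (AP d ρ v p)) =
      ∑ l, (2 * eval x (q l)) * eval x (pderiv j (q l)) := by
    intro j
    unfold AP
    rw [h1, map_add, pderiv_C, add_zero]
    simp only [map_sum, Derivation.leibniz_pow, smul_eq_mul, nsmul_eq_mul, map_mul, map_pow]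
    refine Finset.sum_congr rfl fun l _ => ?_
    simp
    ring
  have e2 : (eval x p) ^ 2 + eval x (VP d ρ p) = ∑ l, (eval x (q l)) ^ 2 := by
    have := congrArg (eval x) h1
    simpa using this
  have e3 : ∀ j : ι, (eval x (pderiv j (AP d ρ v p))) ^ 2 ≤
      (4 * ∑ l, (eval x (q l)) ^ 2) * ∑ l, (eval x (pderiv j (q l))) ^ 2 := by
    intro j
    rw [e1 j]
    refine (Finset.sum_mul_sq_le_sq_mul_sq _ _ _).trans (le_of_eq ?_)
    congr 1
    rw [Finset.mul_sum]
    refine Finset.sum_congr rfl fun l _ => ?_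
    ring
  calc ∑ j, (eval x (pderiv j (AP d ρ v p))) ^ 2
      ≤ ∑ j, (4 * ∑ l, (eval x (q l)) ^ 2) * ∑ l, (eval x (pderiv j (q l))) ^ 2 :=
        Finset.sum_le_sum fun j _ => e3 j
    _ = (4 * ∑ l, (eval x (q l)) ^ 2) * ∑ l, ∑ j, (eval x (pderiv j (q l))) ^ 2 := by
        rw [← Finset.mul_sum, Finset.sum_comm]
    _ = _ := by
        rw [h2 x, e2]
        ring

theorem ac_jet {d : ℕ} (hd : 1 ≤ d) {ρ : ℝ} (hρ : 0 < ρ) (p : MvPolynomial ι ℝ)
    (hp : p.totalDegree ≤ d) :
    ∫ x, eval x (VP d ρ p) / ((eval x p) ^ 2 + eval x (VP d ρ p)) ∂(gam ι) ≤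
      138240 * d * ρ := by
  obtain ⟨κ, _, _, q, hdeg, h1, h2⟩ := jac_family (ι := ι) hρ p hp
  set X : (ι → ℝ) → ℝ :=
    fun x => eval x (VP d ρ p) / ((eval x p) ^ 2 + eval x (VP d ρ p)) with hX
  have hv := vp_nonneg (ι := ι) d ρ p
  have hX0 : ∀ x, 0 ≤ X x := fun x =>
    div_nonneg (hv x) (add_nonneg (sq_nonneg _) (hv x))
  have hX1 : ∀ x, X x ≤ 1 := fun x =>
    div_le_one_of_le₀ (by linarith [sq_nonneg (eval x p)]) (add_nonneg (sq_nonneg _) (hv x))
  have hXm : Measurable X :=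
    (eval_measurable _).div (((eval_measurable p).pow_const 2).add (eval_measurable _))
  have hXi : Integrable X (gam ι) := by
    refine Integrable.mono' (integrable_const (1 : ℝ)) hXm.aestronglyMeasurable
      (Filter.Eventually.of_forall fun x => ?_)
    rw [Real.norm_of_nonneg (hX0 x)]
    exact hX1 x
  have hbd : ∀ t : ℝ, 0 < t → (gam ι).real {x | t < X x} ≤ 69120 * d * ρ * t ^ (-(1 / 2) : ℝ) := by
    intro t ht
    have hst : 0 < √t := Real.sqrt_pos.mpr ht
    have h3 := ac_vec hd q hdeg (η := ρ / √t) (by positivity)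
    have h4 : {x | t < X x} ⊆ {x | ∑ l, (eval x (q l)) ^ 2 <
        (ρ / √t) ^ 2 * ∑ l, ∑ j, (eval x (pderiv j (q l))) ^ 2} := by
      intro x hx
      simp only [Set.mem_ofPred_eq, hX] at hx ⊢
      have e2 : (eval x p) ^ 2 + eval x (VP d ρ p) = ∑ l, (eval x (q l)) ^ 2 := by
        have := congrArg (eval x) h1
        simpa using this
      have hpos : 0 < (eval x p) ^ 2 + eval x (VP d ρ p) := by
        rcases (add_nonneg (sq_nonneg (eval x p)) (hv x)).lt_or_eq with h | h
        · exact h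
        · rw [← h, div_zero] at hx
          linarith
      rw [lt_div_iff₀ hpos] at hx
      rw [← e2, h2 x, div_pow, Real.sq_sqrt ht.le]
      have e3 : ρ ^ 2 / t * (1 / ρ ^ 2 * eval x (VP d ρ p)) = eval x (VP d ρ p) / t := by
        field_simp
      rw [e3, lt_div_iff₀ ht]
      linarith
    refine (measureReal_mono h4).trans (h3.trans (le_of_eq ?_))
    have e4 : t ^ (-(1 / 2) : ℝ) = (√t)⁻¹ := by
      rw [Real.rpow_neg ht.le, Real.sqrt_eq_rpow]
    rw [e4]
    field_simp
  have hzero : ∀ t : ℝ, 1 < t → (gam ι).real {x | t < X x} = 0 := by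
    intro t ht
    have : {x | t < X x} = ∅ := by
      ext x
      simp only [Set.mem_ofPred_eq, Set.mem_empty_iff_false, iff_false, not_lt]
      exact (hX1 x).trans ht.le
    rw [this]
    simp
  rw [hXi.integral_eq_integral_meas_lt (Filter.Eventually.of_forall hX0)]
  have hg : IntegrableOn (fun t : ℝ => 69120 * d * ρ * t ^ (-(1 / 2) : ℝ)) (Set.Ioc 0 1) := by
    refine Integrable.const_mul ?_ _
    have := (intervalIntegral.intervalIntegrable_rpow' (a := 0) (b := 1)
      (r := (-(1 / 2) : ℝ)) (by norm_num))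
    rw [intervalIntegrable_iff_integrableOn_Ioc_of_le (by norm_num)] at this
    exact this
  have hval : ∫ t in Set.Ioc (0 : ℝ) 1, 69120 * d * ρ * t ^ (-(1 / 2) : ℝ) =
      138240 * d * ρ := by
    rw [integral_const_mul, ← intervalIntegral.integral_of_le (by norm_num),
      integral_rpow (Or.inl (by norm_num))]
    norm_num
    ring
  have hsub : ∫ t in Set.Ioi (0 : ℝ), (gam ι).real {x | t < X x} =
      ∫ t in Set.Ioc (0 : ℝ) 1, (gam ι).real {x | t < X x} := by
    refine setIntegral_eq_of_subset_of_forall_sdiff_eq_zero measurableSet_Ioi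
      Set.Ioc_subset_Ioi_self fun t ht => ?_
    refine hzero t ?_
    have h5 := ht.1
    have h6 := ht.2
    simp only [Set.mem_Ioi, Set.mem_Ioc, not_and, not_le] at h5 h6
    exact h6 h5
  rw [hsub, ← hval]
  refine setIntegral_mono_on ?_ hg measurableSet_Ioc fun t ht => hbd t ht.1
  refine Integrable.mono' (integrableOn_const (C := (1 : ℝ)) (by simp)) ?_ ?_
  · have hanti : Antitone fun t : ℝ => (gam ι).real {x | t < X x} := by
      intro s t hst
      exact measureReal_mono fun x hx => lt_of_le_of_lt hst hx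
    exact hanti.measurable.aestronglyMeasurable
  · refine Filter.Eventually.of_forall fun t => ?_
    rw [Real.norm_of_nonneg measureReal_nonneg]
    exact measureReal_le_one

end Pool.Agent.KWG
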