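import Pool.Agent.Lib.MP_68391b_lc.Sq.SCoef

/-! The trigonometric multiplier which vanishes exactly on the top shell. -/

namespace Pool.Agent.KWG

section JCoefAux

open Polynomial

noncomputable def jc_sPoly (P : ℝ[X]) (m : ℕ) : ℝ[X] :=
  ∑ a ∈ Finset.range (m + 1), C (P.coeff a * (-1 / 4) ^ a) * (X ^ (m - a) * (X - 1) ^ (2 * a))

theorem jc_sPoly_natDegree (P : ℝ[X]) (m : ℕ) : (jc_sPoly P m).natDegree ≤ 2 * m := by
  unfold jc_sPoly
  refine natDegree_sum_le_of_forall_le _ _ fun a ha => ?_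
  rw [Finset.mem_range] at ha
  have h1 : (X - 1 : ℝ[X]).natDegree ≤ 1 := by
    rw [← C_1, natDegree_X_sub_C]
  refine (natDegree_C_mul_le _ _).trans ?_
  refine natDegree_mul_le.trans ?_
  rw [natDegree_X_pow]
  have h2 : ((X - 1 : ℝ[X]) ^ (2 * a)).natDegree ≤ 2 * a := by
    refine natDegree_pow_le.trans ?_
    calc 2 * a * (X - 1 : ℝ[X]).natDegree ≤ 2 * a * 1 := Nat.mul_le_mul_left _ h1
      _ = 2 * a := mul_one _
  omega

theorem jc_sPoly_eval (P : ℝ[X]) (m : ℕ) (hP : P.natDegree ≤ m) (w : ℂ) :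
    ((jc_sPoly P m).map (algebraMap ℝ ℂ)).eval (Complex.exp (2 * w * Complex.I)) =
      Complex.exp (2 * w * Complex.I) ^ m *
        (P.map (algebraMap ℝ ℂ)).eval (Complex.sin w ^ 2) := by
  have h1 := coef_sin_sq_exp w
  have hdeg : (P.map (algebraMap ℝ ℂ)).natDegree < m + 1 :=
    lt_of_le_of_lt (natDegree_map_le) (Nat.lt_succ_of_le hP)
  rw [eval_eq_sum_range' hdeg]
  unfold jc_sPoly
  rw [Polynomial.map_sum, eval_finsetSum, Finset.mul_sum]
  refine Finset.sum_congr rfl fun a ha => ?_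
  rw [Finset.mem_range] at ha
  simp only [Polynomial.map_mul, Polynomial.map_pow, Polynomial.map_sub, map_X, map_C,
    Polynomial.map_one, eval_mul, eval_pow, eval_sub, eval_X, eval_C, eval_one, coeff_map]
  set z : ℂ := Complex.exp (2 * w * Complex.I) with hz
  have h2 : (algebraMap ℝ ℂ (P.coeff a * (-1 / 4) ^ a)) =
      (algebraMap ℝ ℂ (P.coeff a)) * (-1 / 4) ^ a := by
    rw [map_mul, map_pow]
    congr 2
    simp
  have h3 : z ^ m = z ^ (m - a) * z ^ a := by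
    rw [← pow_add]; congr 1; omega
  have h4 : (-1 / 4 : ℂ) ^ a * (z - 1) ^ (2 * a) = z ^ a * (Complex.sin w ^ 2) ^ a := by
    rw [pow_mul, ← mul_pow, ← mul_pow, h1]
  rw [h2, h3]
  calc (algebraMap ℝ ℂ (P.coeff a)) * (-1 / 4) ^ a * (z ^ (m - a) * (z - 1) ^ (2 * a))
      = (algebraMap ℝ ℂ (P.coeff a)) * z ^ (m - a) * ((-1 / 4 : ℂ) ^ a * (z - 1) ^ (2 * a)) := by ring
    _ = _ := by rw [h4]; ring

theorem jc_coeff_bound (P : ℝ[X]) (m : ℕ) (hP : P.natDegree ≤ m) (M κ : ℝ)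
    (hM : ∀ φ : ℝ, ‖(P.map (algebraMap ℝ ℂ)).eval (Complex.sin (φ + κ * Complex.I) ^ 2)‖ ≤ M)
    (j : ℕ) :
    |(jc_sPoly P m).coeff j| * Real.exp (-2 * κ * ((j : ℝ) - m)) ≤ M := by
  have h := coef_bound ((jc_sPoly P m).map (algebraMap ℝ ℂ)) (Real.exp (-2 * κ))
    (M * Real.exp (-2 * κ) ^ m) (Real.exp_pos _) ?_ j
  · rw [coeff_map, Complex.coe_algebraMap, Complex.norm_real, Real.norm_eq_abs] at h
    have e : Real.exp (-2 * κ * ((j : ℝ) - m)) =
        Real.exp (-2 * κ) ^ j / Real.exp (-2 * κ) ^ m := by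
      rw [← Real.exp_nat_mul, ← Real.exp_nat_mul, ← Real.exp_sub]
      congr 1
      ring
    rw [e, ← mul_div_assoc, div_le_iff₀ (by positivity)]
    exact h
  · intro z hz
    have h1 : z = Complex.exp (2 * ((Complex.arg z / 2 : ℝ) + κ * Complex.I) * Complex.I) := by
      have e : (2 * ((Complex.arg z / 2 : ℝ) + κ * Complex.I) * Complex.I : ℂ) =
          ((-2 * κ : ℝ) : ℂ) + Complex.arg z * Complex.I := by
        have hI : Complex.I * Complex.I = -1 := Complex.I_mul_I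
        push_cast
        linear_combination (2 * κ) * hI
      rw [e, Complex.exp_add, ← Complex.ofReal_exp, ← hz]
      exact (Complex.norm_mul_exp_arg_mul_I z).symm
    rw [h1, jc_sPoly_eval P m hP, ← h1, norm_mul, norm_pow, hz, mul_comm]
    have := hM (Complex.arg z / 2)
    gcongr

theorem jc_cos_expand (P : ℝ[X]) (m : ℕ) (hP : P.natDegree ≤ m) (h y : ℝ) :
    P.eval (Real.sin (h * y) ^ 2) =
      ∑ j ∈ Finset.range (m + (m + 1)), (jc_sPoly P m).coeff j *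
        Real.cos (2 * h * |(j : ℝ) - m| * y) := by
  have h1 := jc_sPoly_eval P m hP ((h * y : ℝ) : ℂ)
  set z : ℂ := Complex.exp (2 * ((h * y : ℝ) : ℂ) * Complex.I) with hz
  have hdeg : ((jc_sPoly P m).map (algebraMap ℝ ℂ)).natDegree < m + (m + 1) := by
    have := jc_sPoly_natDegree P m
    have h2 := natDegree_map_le (f := algebraMap ℝ ℂ) (p := jc_sPoly P m)
    omega
  rw [eval_eq_sum_range' hdeg] at h1
  have hz0 : z ≠ 0 := Complex.exp_ne_zero _
  have h2 : ((P.eval (Real.sin (h * y) ^ 2) : ℝ) : ℂ) =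
      ∑ j ∈ Finset.range (m + (m + 1)), ((jc_sPoly P m).coeff j : ℂ) *
        Complex.exp (((2 * h * ((j : ℝ) - m) * y : ℝ) : ℂ) * Complex.I) := by
    have e1 : ((P.eval (Real.sin (h * y) ^ 2) : ℝ) : ℂ) =
        (P.map (algebraMap ℝ ℂ)).eval (Complex.sin ((h * y : ℝ) : ℂ) ^ 2) := by
      have e0 : (Complex.sin ((h * y : ℝ) : ℂ) ^ 2) =
          (algebraMap ℝ ℂ) (Real.sin (h * y) ^ 2) := by
        simp
      rw [e0, eval_map_algebraMap, aeval_algebraMap_apply]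
      simp
    rw [e1, ← mul_right_inj' (pow_ne_zero m hz0), ← h1, Finset.mul_sum]
    refine Finset.sum_congr rfl fun j _ => ?_
    have e2 : Complex.exp (((2 * h * ((j : ℝ) - m) * y : ℝ) : ℂ) * Complex.I) * z ^ m =
        z ^ j := by
      rw [hz, ← Complex.exp_nat_mul, ← Complex.exp_nat_mul, ← Complex.exp_add]
      congr 1
      push_cast
      ring
    rw [coeff_map, Complex.coe_algebraMap, ← e2]
    ring
  have h3 := congrArg Complex.re h2
  rw [Complex.ofReal_re, Complex.re_sum] at h3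
  rw [h3]
  refine Finset.sum_congr rfl fun j _ => ?_
  rw [Complex.re_ofReal_mul, Complex.exp_ofReal_mul_I_re]
  congr 1
  rcases le_total 0 ((j : ℝ) - m) with h4 | h4
  · rw [abs_of_nonneg h4]
  · rw [abs_of_nonpos h4, ← Real.cos_neg]
    congr 1
    ring

theorem jc_geo (κ : ℝ) (h0 : 0 < κ) (h1 : κ ≤ 1 / 4) (N : ℕ) :
    ∑ n ∈ Finset.range N, Real.exp (-κ) ^ n ≤ 5 / 4 * (1 / κ) := by
  set x := Real.exp (-κ) with hx
  have hx0 : 0 < x := Real.exp_pos _
  have hx1 : x < 1 := by rw [hx, Real.exp_lt_one_iff]; linarith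
  have hx2 : x * (1 + κ) ≤ 1 := by
    have h6 : x * Real.exp κ = 1 := by rw [hx, ← Real.exp_add]; simp
    calc x * (1 + κ) ≤ x * Real.exp κ := by
          have := Real.add_one_le_exp κ
          gcongr
          linarith
      _ = 1 := h6
  have h2 : ∑ n ∈ Finset.range N, x ^ n ≤ 1 / (1 - x) := by
    rw [le_div_iff₀ (by linarith)]
    have := geom_sum_mul_neg x N
    rw [this]
    have : 0 ≤ x ^ N := by positivity
    linarith
  refine h2.trans ?_
  rw [← mul_div_assoc, mul_one, div_le_div_iff₀ (by linarith) h0]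
  nlinarith

/-- the sum of `e^{-κ |j - m|}` -/
theorem jc_sum_le (κ : ℝ) (h0 : 0 < κ) (h1 : κ ≤ 1 / 4) (m : ℕ) :
    ∑ j ∈ Finset.range (m + (m + 1)), Real.exp (-κ * |(j : ℝ) - m|) ≤ 5 / 2 * (1 / κ) := by
  set g : ℕ → ℝ := fun n => Real.exp (-κ) ^ n with hg
  have hg' : ∀ n : ℕ, g n = Real.exp (-κ * n) := by
    intro n
    rw [hg]
    simp only
    rw [← Real.exp_nat_mul]
    ring_nf
  have hgn : ∀ n, 0 ≤ g n := fun n => by rw [hg']; exact (Real.exp_pos _).le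
  rw [Finset.sum_range_add]
  have s1 : ∑ i ∈ Finset.range m, Real.exp (-κ * |(i : ℝ) - m|) ≤ 5 / 4 * (1 / κ) := by
    have e1 : ∑ i ∈ Finset.range m, Real.exp (-κ * |(i : ℝ) - m|) =
        ∑ i ∈ Finset.range m, g (i + 1) := by
      rw [← Finset.sum_range_reflect (fun i => g (i + 1))]
      refine Finset.sum_congr rfl fun i hi => ?_
      rw [Finset.mem_range] at hi
      have e2 : m - 1 - i + 1 = m - i := by omega
      rw [e2, hg']
      have e3 : |(i : ℝ) - m| = ((m - i : ℕ) : ℝ) := by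
        rw [Nat.cast_sub hi.le]
        rw [abs_of_nonpos]
        · ring
        · have : (i : ℝ) < m := by exact_mod_cast hi
          linarith
      rw [e3]
    rw [e1]
    have e4 := Finset.sum_range_succ' g m
    have e5 := jc_geo κ h0 h1 (m + 1)
    have e6 := hgn 0
    rw [hg] at e4 e6 ⊢
    linarith
  have s2 : ∑ i ∈ Finset.range (m + 1), Real.exp (-κ * |((m + i : ℕ) : ℝ) - m|) ≤
      5 / 4 * (1 / κ) := by
    have e1 : ∑ i ∈ Finset.range (m + 1), Real.exp (-κ * |((m + i : ℕ) : ℝ) - m|) =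
        ∑ i ∈ Finset.range (m + 1), g i := by
      refine Finset.sum_congr rfl fun i _ => ?_
      rw [hg']
      have e3 : |((m + i : ℕ) : ℝ) - m| = (i : ℝ) := by
        push_cast
        rw [add_sub_cancel_left]
        exact abs_of_nonneg (by positivity)
      rw [e3]
    rw [e1]
    exact jc_geo κ h0 h1 _
  linarith

/-- the nodes -/
noncomputable def jc_node (L₀ i : ℕ) : ℝ := Real.sin (Real.pi / (2 * L₀) * √((L₀ ^ 2 + i : ℕ) : ℝ)) ^ 2

theorem jc_node_ge {D L₀ i : ℕ} (hL : 1 ≤ L₀) (hi : i ≤ D) :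
    1 - (D : ℝ) ^ 2 / (L₀ : ℝ) ^ 4 ≤ jc_node L₀ i := by
  unfold jc_node
  have hL' : (1 : ℝ) ≤ L₀ := by exact_mod_cast hL
  have hL0 : (0 : ℝ) < L₀ := by linarith
  have hi' : (i : ℝ) ≤ D := by exact_mod_cast hi
  have hi0 : (0 : ℝ) ≤ i := by positivity
  set s : ℝ := √((L₀ ^ 2 + i : ℕ) : ℝ) with hs
  have hs2 : s ^ 2 = (L₀ : ℝ) ^ 2 + i := by
    rw [hs, Real.sq_sqrt (by positivity)]
    push_cast
    ring
  have hs0 : 0 ≤ s := Real.sqrt_nonneg _
  have hsL : (L₀ : ℝ) ≤ s := by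
    apply le_of_sq_le_sq _ hs0
    rw [hs2]; linarith
  set x : ℝ := Real.pi / (2 * L₀) * (s - L₀) with hx
  have hx0 : 0 ≤ x := by
    have := Real.pi_pos
    have h2 : 0 ≤ s - L₀ := by linarith
    positivity
  have e1 : Real.pi / (2 * L₀) * s = Real.pi / 2 + x := by
    rw [hx]; field_simp; ring
  have e2 : Real.sin (Real.pi / (2 * L₀) * s) = Real.cos x := by
    rw [e1, Real.sin_add, Real.sin_pi_div_two, Real.cos_pi_div_two]
    ring
  rw [e2]
  have h3 : Real.cos x ^ 2 = 1 - Real.sin x ^ 2 := by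
    have := Real.sin_sq_add_cos_sq x; linarith
  rw [h3]
  have h4 : Real.sin x ^ 2 ≤ x ^ 2 := by
    have h5 : |Real.sin x| ≤ |x| := Real.abs_sin_le_abs
    exact sq_le_sq' (by have := neg_abs_le (Real.sin x); have := abs_of_nonneg hx0; linarith)
      (by have := le_abs_self (Real.sin x); have := abs_of_nonneg hx0; linarith)
  have h6 : x ≤ D / (L₀ : ℝ) ^ 2 := by
    have h7 : (s - L₀) * (2 * L₀) ≤ i := by nlinarith
    have h8 : Real.pi ≤ 4 := Real.pi_le_four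
    rw [le_div_iff₀ (by positivity)]
    have h9 : x * (L₀ : ℝ) ^ 2 = Real.pi / 4 * ((s - L₀) * (2 * L₀)) := by
      rw [hx]; field_simp; ring
    rw [h9]
    have h10 : 0 ≤ (s - L₀) * (2 * L₀) := by
      have h2 : 0 ≤ s - L₀ := by linarith
      positivity
    have h11 : Real.pi / 4 * ((s - L₀) * (2 * L₀)) ≤ 1 * ((s - L₀) * (2 * L₀)) := by
      gcongr
      linarith
    linarith
  have h12 : x ^ 2 ≤ (D / (L₀ : ℝ) ^ 2) ^ 2 := by gcongr
  have h13 : (D / (L₀ : ℝ) ^ 2) ^ 2 = (D : ℝ) ^ 2 / (L₀ : ℝ) ^ 4 := by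
    rw [div_pow]; ring_nf
  linarith

theorem jc_node_pow {D q L₀ i : ℕ} (hD : 1 ≤ D) (hq : 1 ≤ q) (hL : 1 ≤ L₀)
    (hqD : 2 * q * D ^ 3 ≤ L₀ ^ 4) (hi : i ≤ D) :
    0 < jc_node L₀ i ∧ 1 ≤ (jc_node L₀ i ^ q)⁻¹ ∧ (jc_node L₀ i ^ q)⁻¹ ≤ 1 + 1 / D := by
  have hD' : (1 : ℝ) ≤ D := by exact_mod_cast hD
  have hq' : (1 : ℝ) ≤ q := by exact_mod_cast hq
  have hL' : (1 : ℝ) ≤ L₀ := by exact_mod_cast hL
  have h1 := jc_node_ge (D := D) hL hi
  have hqD' : 2 * (q : ℝ) * (D : ℝ) ^ 3 ≤ (L₀ : ℝ) ^ 4 := by exact_mod_cast hqD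
  set u : ℝ := (D : ℝ) ^ 2 / (L₀ : ℝ) ^ 4 with hu
  have hu0 : 0 ≤ u := by positivity
  have hu1 : u ≤ 1 / (2 * q * D) := by
    rw [hu, div_le_div_iff₀ (by positivity) (by positivity)]
    have e1 : (D : ℝ) ^ 2 * (2 * (q : ℝ) * D) = 2 * (q : ℝ) * (D : ℝ) ^ 3 := by ring
    linarith
  have hqu : q * u ≤ 1 / (2 * D) := by
    calc q * u ≤ q * (1 / (2 * q * D)) := by gcongr
      _ = 1 / (2 * D) := by field_simp
  have hu2 : u ≤ 1 / 2 := by
    have h2 : 1 / (2 * (D : ℝ)) ≤ 1 / 2 := by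
      apply one_div_le_one_div_of_le (by norm_num); linarith
    nlinarith
  have hy0 : 0 < jc_node L₀ i := by linarith
  have hy1 : jc_node L₀ i ≤ 1 := by
    unfold jc_node
    exact Real.sin_sq_le_one _
  have hp0 : 0 < jc_node L₀ i ^ q := by positivity
  have hp1 : jc_node L₀ i ^ q ≤ 1 := pow_le_one₀ hy0.le hy1
  refine ⟨hy0, (one_le_inv₀ hp0).2 hp1, ?_⟩
  have h3 : 1 - 1 / (2 * (D : ℝ)) ≤ jc_node L₀ i ^ q := by
    calc 1 - 1 / (2 * (D : ℝ)) ≤ 1 - q * u := by linarith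
      _ = 1 + q * (-u) := by ring
      _ ≤ (1 + -u) ^ q := one_add_mul_le_pow (by linarith) q
      _ ≤ jc_node L₀ i ^ q := by
          have : 0 ≤ 1 + -u := by linarith
          gcongr
          linarith
  rw [inv_le_comm₀ hp0 (by positivity)]
  refine le_trans ?_ h3
  rw [inv_le_iff_one_le_mul₀ (by positivity)]
  have h4 : 1 / (2 * (D : ℝ)) = (1 / D) / 2 := by field_simp
  rw [h4]
  have h5 : 0 < 1 / (D : ℝ) := by positivity
  have h6 : 1 / (D : ℝ) ≤ 1 := by rw [div_le_one (by linarith)]; exact hD'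
  nlinarith

/-- the polynomial `1 - ∏ (1 - λ_i X^q)` -/
noncomputable def jc_Q (D q L₀ : ℕ) : ℝ[X] :=
  1 - ∏ i ∈ Finset.range D, (1 - C ((jc_node L₀ (i + 1) ^ q)⁻¹) * X ^ q)

theorem jc_Q_natDegree (D q L₀ : ℕ) : (jc_Q D q L₀).natDegree ≤ q * D := by
  unfold jc_Q
  refine (natDegree_sub_le _ _).trans ?_
  rw [natDegree_one]
  refine max_le (Nat.zero_le _) ?_
  refine (natDegree_prod_le _ _).trans ?_
  calc ∑ i ∈ Finset.range D, (1 - C ((jc_node L₀ (i + 1) ^ q)⁻¹) * X ^ q : ℝ[X]).natDegree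
      ≤ ∑ _i ∈ Finset.range D, q := by
        refine Finset.sum_le_sum fun i _ => ?_
        refine (natDegree_sub_le _ _).trans ?_
        rw [natDegree_one]
        exact max_le (Nat.zero_le _) (natDegree_C_mul_X_pow_le _ _)
    _ = q * D := by rw [Finset.sum_const, Finset.card_range, smul_eq_mul, mul_comm]

theorem jc_Q_coeff_zero {D q L₀ : ℕ} (hq : 1 ≤ q) : (jc_Q D q L₀).coeff 0 = 0 := by
  rw [coeff_zero_eq_eval_zero]
  unfold jc_Q
  rw [eval_sub, eval_one, eval_prod]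
  have h0 : q ≠ 0 := by omega
  simp [h0]

theorem jc_Q_eval (D q L₀ : ℕ) (x : ℝ) : (jc_Q D q L₀).eval x =
    1 - ∏ i ∈ Finset.range D, (1 - (jc_node L₀ (i + 1) ^ q)⁻¹ * x ^ q) := by
  unfold jc_Q
  rw [eval_sub, eval_one, eval_prod]
  simp

theorem jc_Q_evalC (D q L₀ : ℕ) (s : ℂ) : ((jc_Q D q L₀).map (algebraMap ℝ ℂ)).eval s =
    1 - ∏ i ∈ Finset.range D, (1 - (((jc_node L₀ (i + 1) ^ q)⁻¹ : ℝ) : ℂ) * s ^ q) := by
  unfold jc_Q
  rw [Polynomial.map_sub, Polynomial.map_one, Polynomial.map_prod, eval_sub, eval_one, eval_prod]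
  congr 1
  refine Finset.prod_congr rfl fun i _ => ?_
  simp

noncomputable def jc_P (D q L₀ : ℕ) : ℝ[X] := (jc_Q D q L₀).divX

theorem jc_P_mul {D q L₀ : ℕ} (hq : 1 ≤ q) : X * jc_P D q L₀ = jc_Q D q L₀ := by
  have h := X_mul_divX_add (jc_Q D q L₀)
  rw [jc_Q_coeff_zero hq, C_0, add_zero] at h
  exact h

theorem jc_P_natDegree (D q L₀ : ℕ) : (jc_P D q L₀).natDegree ≤ q * D := by
  unfold jc_P
  have h := natDegree_divX_eq_natDegree_tsub_one (p := jc_Q D q L₀)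
  have := jc_Q_natDegree D q L₀
  omega

theorem jc_norm_prod_le {ι : Type*} (s : Finset ι) (a : ι → ℂ) (b : ℝ) (hb : ∀ i ∈ s, ‖a i‖ ≤ b)
    (hb0 : 0 ≤ b) : ‖1 - ∏ i ∈ s, (1 - a i)‖ ≤ (1 + b) ^ s.card - 1 := by
  classical
  induction s using Finset.induction_on with
  | empty => simp
  | insert i s hi ih =>
    rw [Finset.prod_insert hi, Finset.card_insert_of_notMem hi]
    have h1 := ih fun j hj => hb j (Finset.mem_insert_of_mem hj)
    have h2 := hb i (Finset.mem_insert_self i s)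
    have e : 1 - (1 - a i) * ∏ j ∈ s, (1 - a j) =
        (1 - a i) * (1 - ∏ j ∈ s, (1 - a j)) + a i := by ring
    rw [e]
    have h3 : ‖1 - a i‖ ≤ 1 + b := by
      refine (norm_sub_le _ _).trans ?_
      rw [norm_one]; linarith
    calc ‖(1 - a i) * (1 - ∏ j ∈ s, (1 - a j)) + a i‖
        ≤ ‖1 - a i‖ * ‖1 - ∏ j ∈ s, (1 - a j)‖ + ‖a i‖ := by
          refine (norm_add_le _ _).trans ?_
          rw [norm_mul]
      _ ≤ (1 + b) * ((1 + b) ^ s.card - 1) + b := by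
          have : 0 ≤ ‖1 - ∏ j ∈ s, (1 - a j)‖ := norm_nonneg _
          have h4 : 0 ≤ (1 + b) ^ s.card - 1 := by
            have := one_le_pow₀ (M₀ := ℝ) (a := 1 + b) (by linarith) (n := s.card)
            linarith
          gcongr
      _ = (1 + b) ^ (s.card + 1) - 1 := by ring

theorem jc_P_bound {D q L₀ : ℕ} (hD : 1 ≤ D) (hq : 2 ≤ q) (hDq : D ^ 4 ≤ 2 ^ q)
    (hL : 1 ≤ L₀) (hqD : 2 * q * D ^ 3 ≤ L₀ ^ 4) (φ κ : ℝ) (hκ : |κ| = 1 / (4 * q)) :
    ‖((jc_P D q L₀).map (algebraMap ℝ ℂ)).eval (Complex.sin (φ + κ * Complex.I) ^ 2)‖ ≤ 43 := by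
  have hq1 : 1 ≤ q := by omega
  have hD' : (1 : ℝ) ≤ D := by exact_mod_cast hD
  have hq' : (2 : ℝ) ≤ q := by exact_mod_cast hq
  have hb := coef_sinh_sq_le κ q hq1 hκ
  have hn := coef_sin_sq_norm φ κ
  have hone := coef_one_sub_bound (J := D) (q := q) hD hq1 hDq φ κ hκ
  have hκ0 : κ ≠ 0 := by
    intro h
    rw [h, abs_zero] at hκ
    have : (0 : ℝ) < 1 / (4 * q) := by positivity
    linarith
  have hsh : 0 < Real.sinh κ ^ 2 := by
    have : Real.sinh κ ≠ 0 := by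
      rw [Ne, Real.sinh_eq_zero]; exact hκ0
    positivity
  have ha1 : Real.sin φ ^ 2 ≤ 1 := Real.sin_sq_le_one φ
  have ha0 : 0 ≤ Real.sin φ ^ 2 := sq_nonneg _
  rw [pow_mul] at hone
  set s : ℂ := Complex.sin (φ + κ * Complex.I) ^ 2 with hs
  have hsn : 0 < ‖s‖ := by rw [hn]; linarith
  have hs0 : s ≠ 0 := norm_pos_iff.1 hsn
  have hmul : s * ((jc_P D q L₀).map (algebraMap ℝ ℂ)).eval s =
      1 - ∏ i ∈ Finset.range D, (1 - (((jc_node L₀ (i + 1) ^ q)⁻¹ : ℝ) : ℂ) * s ^ q) := by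
    rw [← jc_Q_evalC, ← jc_P_mul hq1, Polynomial.map_mul, map_X, eval_mul, eval_X]
  have hnorm : ‖((jc_P D q L₀).map (algebraMap ℝ ℂ)).eval s‖ =
      ‖1 - ∏ i ∈ Finset.range D, (1 - (((jc_node L₀ (i + 1) ^ q)⁻¹ : ℝ) : ℂ) * s ^ q)‖ / ‖s‖ := by
    rw [← hmul, norm_mul]
    field_simp
  rw [hnorm]
  have hlam : ∀ i ∈ Finset.range D, 1 ≤ (jc_node L₀ (i + 1) ^ q)⁻¹ ∧
      (jc_node L₀ (i + 1) ^ q)⁻¹ ≤ 1 + 1 / D := fun i hi =>
    (jc_node_pow hD hq1 hL hqD (Nat.succ_le_of_lt (Finset.mem_range.1 hi))).2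
  have hsq : ‖s ^ q‖ = ‖s‖ ^ q := norm_pow _ _
  rcases le_or_gt (1 / 2) ‖s‖ with hcase | hcase
  · -- large `s`
    have hE : ‖s ^ q‖ ≤ 14 / 13 := by
      rw [hsq]
      have hbq1 : (q : ℝ) * Real.sinh κ ^ 2 ≤ 1 / 14 := by
        have e1 : (q : ℝ) * Real.sinh κ ^ 2 ≤ (q : ℝ) * (1 / (14 * (q : ℝ) ^ 2)) := by gcongr
        have e2 : (q : ℝ) * (1 / (14 * (q : ℝ) ^ 2)) = 1 / (14 * (q : ℝ)) := by field_simp
        have e3 : (1 : ℝ) / (14 * (q : ℝ)) ≤ 1 / 14 :=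
          one_div_le_one_div_of_le (by norm_num) (by linarith)
        linarith
      calc ‖s‖ ^ q ≤ (Real.exp (Real.sinh κ ^ 2)) ^ q := by
            gcongr
            rw [hn]
            linarith [Real.add_one_le_exp (Real.sinh κ ^ 2)]
        _ = Real.exp ((q : ℝ) * Real.sinh κ ^ 2) := by rw [← Real.exp_nat_mul]
        _ ≤ Real.exp (1 / 14) := Real.exp_le_exp.2 hbq1
        _ ≤ 1 / (1 - 1 / 14) := coef_exp_le_inv (by norm_num)
        _ = 14 / 13 := by norm_num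
    have hfac : ∀ i ∈ Finset.range D,
        ‖1 - (((jc_node L₀ (i + 1) ^ q)⁻¹ : ℝ) : ℂ) * s ^ q‖ ≤ 1 + 3 / D := by
      intro i hi
      obtain ⟨hl1, hl2⟩ := hlam i hi
      generalize (jc_node L₀ (i + 1) ^ q)⁻¹ = l at hl1 hl2
      have e : (1 : ℂ) - (l : ℂ) * s ^ q = (1 - s ^ q) - ((l - 1 : ℝ) : ℂ) * s ^ q := by
        push_cast; ring
      rw [e]
      refine (norm_sub_le _ _).trans ?_
      rw [norm_mul, Complex.norm_real, Real.norm_of_nonneg (by linarith)]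
      have h1 : (l - 1) * ‖s ^ q‖ ≤ (1 / D) * (14 / 13) := by
        have : l - 1 ≤ 1 / D := by linarith
        have h0 : 0 ≤ l - 1 := by linarith
        gcongr
      have h2 : (3 : ℝ) / D = 3 * (1 / D) := by ring
      have h3 : (0 : ℝ) < 1 / D := by positivity
      rw [h2]
      linarith
    have hprod : ‖∏ i ∈ Finset.range D,
        (1 - (((jc_node L₀ (i + 1) ^ q)⁻¹ : ℝ) : ℂ) * s ^ q)‖ ≤ 20.2 := by
      rw [norm_prod]
      calc ∏ i ∈ Finset.range D, ‖1 - (((jc_node L₀ (i + 1) ^ q)⁻¹ : ℝ) : ℂ) * s ^ q‖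
          ≤ ∏ _i ∈ Finset.range D, (1 + 3 / (D : ℝ)) :=
            Finset.prod_le_prod (fun _ _ => norm_nonneg _) hfac
        _ = (1 + 3 / (D : ℝ)) ^ D := by rw [Finset.prod_const, Finset.card_range]
        _ ≤ (Real.exp (3 / D)) ^ D := by
            gcongr
            linarith [Real.add_one_le_exp (3 / (D : ℝ))]
        _ = Real.exp 1 ^ 3 := by
            rw [← Real.exp_nat_mul, ← Real.exp_nat_mul]
            congr 1
            field_simp
            norm_num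
        _ ≤ 2.7182818286 ^ 3 := by
            have := Real.exp_one_lt_d9
            gcongr
        _ ≤ 20.2 := by norm_num
    rw [div_le_iff₀ hsn]
    calc ‖1 - ∏ i ∈ Finset.range D, (1 - (((jc_node L₀ (i + 1) ^ q)⁻¹ : ℝ) : ℂ) * s ^ q)‖
        ≤ 1 + 20.2 := by
          refine (norm_sub_le _ _).trans ?_
          rw [norm_one]
          linarith
      _ ≤ 43 * (1 / 2) := by norm_num
      _ ≤ 43 * ‖s‖ := by gcongr
  · -- small `s`
    have hlam2 : ∀ i ∈ Finset.range D,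
        ‖(((jc_node L₀ (i + 1) ^ q)⁻¹ : ℝ) : ℂ) * s ^ q‖ ≤ 2 * ‖s‖ ^ q := by
      intro i hi
      obtain ⟨hl1, hl2⟩ := hlam i hi
      have h6 : 1 / (D : ℝ) ≤ 1 := by rw [div_le_one (by linarith)]; exact hD'
      rw [norm_mul, Complex.norm_real, Real.norm_of_nonneg (by linarith), hsq]
      gcongr
      linarith
    have h1 := jc_norm_prod_le (Finset.range D)
      (fun i => (((jc_node L₀ (i + 1) ^ q)⁻¹ : ℝ) : ℂ) * s ^ q) (2 * ‖s‖ ^ q) hlam2 (by positivity)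
    rw [Finset.card_range] at h1
    rw [div_le_iff₀ hsn]
    refine h1.trans ?_
    -- `x = 2 D r^q`
    set r : ℝ := ‖s‖ with hr
    obtain ⟨p, rfl⟩ : ∃ p, q = p + 2 := ⟨q - 2, by omega⟩
    have hDq' : (D : ℝ) ^ 4 ≤ 2 ^ (p + 2) := by exact_mod_cast hDq
    have hrp : r ^ (p + 1) ≤ (1 / 2) ^ (p + 1) := by gcongr
    have hDr : D * r ^ (p + 1) ≤ 2 := by
      have h2 : (D : ℝ) ≤ 2 ^ (p + 2) := by
        refine le_trans ?_ hDq'
        exact le_self_pow₀ hD' (by norm_num)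
      calc D * r ^ (p + 1) ≤ 2 ^ (p + 2) * (1 / 2) ^ (p + 1) := by gcongr
        _ = 2 * (2 ^ (p + 1) * (1 / 2) ^ (p + 1)) := by ring
        _ = 2 := by rw [← mul_pow]; norm_num
    have hx2 : (D : ℝ) * (2 * r ^ (p + 2)) ≤ 4 * r := by
      calc (D : ℝ) * (2 * r ^ (p + 2)) = 2 * (D * r ^ (p + 1)) * r := by ring
        _ ≤ 2 * 2 * r := by gcongr
        _ = 4 * r := by ring
    have h3 : (1 + 2 * r ^ (p + 2)) ^ D ≤ Real.exp (4 * r) := by
      calc (1 + 2 * r ^ (p + 2)) ^ D ≤ (Real.exp (2 * r ^ (p + 2))) ^ D := by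
            gcongr
            linarith [Real.add_one_le_exp (2 * r ^ (p + 2))]
        _ = Real.exp ((D : ℝ) * (2 * r ^ (p + 2))) := by rw [← Real.exp_nat_mul]
        _ ≤ Real.exp (4 * r) := Real.exp_le_exp.2 hx2
    have h4 : Real.exp (4 * r) - 1 ≤ 43 * r := by
      have hr0 : 0 < r := hsn
      -- e^x - 1 ≤ x e^x
      have h5 := Real.one_sub_le_exp_neg (4 * r)
      have h6 : Real.exp (4 * r) * Real.exp (-(4 * r)) = 1 := by rw [← Real.exp_add]; simp
      have h7 : Real.exp (4 * r) * (1 - 4 * r) ≤ 1 := by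
        calc Real.exp (4 * r) * (1 - 4 * r) ≤ Real.exp (4 * r) * Real.exp (-(4 * r)) := by
              gcongr
          _ = 1 := h6
      have h8 : Real.exp (4 * r) ≤ 7.4 := by
        calc Real.exp (4 * r) ≤ Real.exp (2 * 1) := Real.exp_le_exp.2 (by linarith)
          _ = Real.exp 1 ^ 2 := by rw [← Real.exp_nat_mul]; norm_num
          _ ≤ 2.7182818286 ^ 2 := by
              have := Real.exp_one_lt_d9
              gcongr
          _ ≤ 7.4 := by norm_num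
      nlinarith
    linarith

end JCoefAux

theorem coef2_exists {D q L₀ : ℕ} (hD : 1 ≤ D) (hq : 2 ≤ q) (hDq : D ^ 4 ≤ 2 ^ q)
    (hL : 1 ≤ L₀) (hqD : 2 * q * D ^ 3 ≤ L₀ ^ 4) :
    ∃ (n : ℕ) (c t : Fin n → ℝ) (f : ℕ → ℝ), (∀ i, 0 ≤ t i) ∧ f 0 = 1 ∧
      (∀ k, L₀ ^ 2 < k → k ≤ L₀ ^ 2 + D → f k = 0) ∧
      (∀ k : ℕ, 1 - f k = (1 - Real.cos (2 * (Real.pi / (2 * L₀)) * √k)) *
        ∑ i, c i * Real.cos (t i * √k)) ∧
      (∀ K : ℝ, 0 ≤ K → 8 * q * K * (Real.pi / (2 * L₀)) ≤ 1 →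
        ∑ i, |c i| * Real.exp (K * t i) ≤ 1000 * q) := by
  have hq1 : 1 ≤ q := by omega
  have hq' : (2 : ℝ) ≤ q := by exact_mod_cast hq
  have hL' : (1 : ℝ) ≤ L₀ := by exact_mod_cast hL
  set h : ℝ := Real.pi / (2 * L₀) with hh
  have hh0 : 0 < h := by have := Real.pi_pos; positivity
  set m : ℕ := q * D with hm
  set P := jc_P D q L₀ with hP
  have hPdeg : P.natDegree ≤ m := jc_P_natDegree D q L₀
  refine ⟨m + (m + 1), fun i => (jc_sPoly P m).coeff i / 2,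
    fun i => 2 * h * |((i : ℕ) : ℝ) - m|,
    fun k => 1 - (jc_Q D q L₀).eval (Real.sin (h * √k) ^ 2), fun i => by positivity, ?_, ?_, ?_, ?_⟩
  · -- f 0 = 1
    simp only [Nat.cast_zero, Real.sqrt_zero, mul_zero, Real.sin_zero]
    rw [zero_pow two_ne_zero, ← Polynomial.coeff_zero_eq_eval_zero, jc_Q_coeff_zero hq1, sub_zero]
  · intro k hk1 hk2
    simp only
    rw [jc_Q_eval]
    obtain ⟨i, rfl⟩ : ∃ i, k = L₀ ^ 2 + (i + 1) := ⟨k - L₀ ^ 2 - 1, by omega⟩
    have hi : i < D := by omega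
    have h0 := (jc_node_pow hD hq1 hL hqD (Nat.succ_le_of_lt hi)).1
    have e : Real.sin (h * √((L₀ ^ 2 + (i + 1) : ℕ) : ℝ)) ^ 2 = jc_node L₀ (i + 1) := rfl
    rw [e, Finset.prod_eq_zero (Finset.mem_range.2 hi)]
    · ring
    · have : jc_node L₀ (i + 1) ^ q ≠ 0 := pow_ne_zero _ (by exact_mod_cast h0.ne')
      rw [inv_mul_cancel₀ this, sub_self]
  · intro k
    simp only
    have e1 := jc_cos_expand P m hPdeg h (√k)
    have e2 : ∑ i : Fin (m + (m + 1)), (jc_sPoly P m).coeff i / 2 *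
        Real.cos (2 * h * |((i : ℕ) : ℝ) - m| * √k) = P.eval (Real.sin (h * √k) ^ 2) / 2 := by
      rw [e1, Finset.sum_range, Finset.sum_div]
      refine Finset.sum_congr rfl fun i _ => ?_
      ring
    rw [e2, ← jc_P_mul hq1, Polynomial.eval_mul, Polynomial.eval_X]
    have e3 : Real.cos (2 * h * √k) = 1 - 2 * Real.sin (h * √k) ^ 2 := by
      rw [mul_assoc, Real.cos_two_mul, Real.cos_sq']
      ring
    rw [e3]
    ring
  · intro K hK0 hK
    set κ : ℝ := 1 / (4 * q) with hκ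
    have hκ0 : 0 < κ := by positivity
    have hκ1 : κ ≤ 1 / 4 := by
      rw [hκ]; apply one_div_le_one_div_of_le (by norm_num); linarith
    have hKh : 2 * K * h ≤ κ := by
      rw [hκ, le_div_iff₀ (by positivity)]
      linarith
    have hterm : ∀ i : ℕ, |(jc_sPoly P m).coeff i / 2| *
        Real.exp (K * (2 * h * |(i : ℝ) - m|)) ≤
        43 / 2 * Real.exp (-κ * |(i : ℝ) - m|) := by
      intro i
      have hc : |(jc_sPoly P m).coeff i| ≤ 43 * Real.exp (-2 * κ * |(i : ℝ) - m|) := by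
        have hp := jc_coeff_bound P m hPdeg 43 κ
          (fun φ => jc_P_bound hD hq hDq hL hqD φ κ (by rw [abs_of_pos hκ0])) i
        have hm := jc_coeff_bound P m hPdeg 43 (-κ)
          (fun φ => jc_P_bound hD hq hDq hL hqD φ (-κ) (by rw [abs_neg, abs_of_pos hκ0])) i
        have key : |(jc_sPoly P m).coeff i| * Real.exp (2 * κ * |(i : ℝ) - m|) ≤ 43 := by
          rcases le_total 0 ((i : ℝ) - m) with h4 | h4
          · rw [abs_of_nonneg h4]
            convert hm using 3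
            ring
          · rw [abs_of_nonpos h4]
            convert hp using 3
            ring
        have e : Real.exp (-2 * κ * |(i : ℝ) - m|) =
            (Real.exp (2 * κ * |(i : ℝ) - m|))⁻¹ := by
          rw [← Real.exp_neg]; congr 1; ring
        rw [e, ← div_eq_mul_inv, le_div_iff₀ (Real.exp_pos _)]
        exact key
      set M : ℝ := |(i : ℝ) - m| with hM
      have hM0 : 0 ≤ M := abs_nonneg _
      rw [abs_div, abs_two]
      calc |(jc_sPoly P m).coeff i| / 2 * Real.exp (K * (2 * h * M))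
          ≤ (43 * Real.exp (-2 * κ * M)) / 2 * Real.exp (κ * M) := by
            have : K * (2 * h * M) ≤ κ * M := by nlinarith
            gcongr
        _ = 43 / 2 * (Real.exp (-2 * κ * M) * Real.exp (κ * M)) := by ring
        _ = _ := by
            rw [← Real.exp_add]
            congr 2
            ring
    calc ∑ i : Fin (m + (m + 1)), |(jc_sPoly P m).coeff i / 2| *
          Real.exp (K * (2 * h * |((i : ℕ) : ℝ) - m|))
        = ∑ i ∈ Finset.range (m + (m + 1)), |(jc_sPoly P m).coeff i / 2| *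
          Real.exp (K * (2 * h * |(i : ℝ) - m|)) := by
          rw [Finset.sum_range]
      _ ≤ ∑ i ∈ Finset.range (m + (m + 1)), 43 / 2 * Real.exp (-κ * |(i : ℝ) - m|) :=
          Finset.sum_le_sum fun i _ => hterm i
      _ = 43 / 2 * ∑ i ∈ Finset.range (m + (m + 1)), Real.exp (-κ * |(i : ℝ) - m|) := by
          rw [Finset.mul_sum]
      _ ≤ 43 / 2 * (5 / 2 * (1 / κ)) := by
          have := jc_sum_le κ hκ0 hκ1 m
          gcongr
      _ ≤ 1000 * q := by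
          rw [hκ]
          have : (1 : ℝ) / (1 / (4 * q)) = 4 * q := by field_simp
          rw [this]
          linarith

end Pool.Agent.KWG
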