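import Pool.Agent.Lib.MP_68391b_lc.Jk.JMain
import Pool.Agent.Lib.MP_68391b_lc.Gen.GEps

/-! The theorem without logarithms of the accuracy. -/

set_option linter.unusedSectionVars false

namespace Pool.Agent.KWG

open MeasureTheory ProbabilityTheory MvPolynomial Pool.Agent.KWI

section Aux4

variable {ι : Type} [Fintype ι] [DecidableEq ι]

theorem two_sided_norm3 {d Q : ℕ} (hd : 1 ≤ d)
    (p : MvPolynomial ι ℝ) (hp : p.totalDegree ≤ d)
    (hvar : ∫ x, (eval x p - ∫ y, eval y p ∂(gam ι)) ^ 2 ∂(gam ι) = 1) {N : ℕ}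
    (hN : 2 ^ 82 * d ^ 2 * (Nat.log 2 d + 2) ^ 2 * 4 ^ Q ≤ N)
    (μ : Measure (ι → ℝ)) [IsProbabilityMeasure μ] (hμ : MM N μ) :
    |μ.real {x | 0 ≤ eval x p} - (gam ι).real {x | 0 ≤ eval x p}| ≤ (1 / 2) ^ Q := by
  have hz := zero_null hd p hp hvar
  have h1 := one_sided3 hd p hp hz hN μ hμ
  have hz' : (gam ι).real {x | eval x (-p) = 0} = 0 := by
    have e : {x : ι → ℝ | eval x (-p) = 0} = {x | eval x p = 0} := by
      ext x
      simp only [Set.mem_ofPred_eq, map_neg, neg_eq_zero]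
    rw [e]; exact hz
  have h2 := one_sided3 hd (-p) (by rw [MvPolynomial.totalDegree_neg]; exact hp) hz' hN μ hμ
  have hm0 : MeasurableSet {x : ι → ℝ | 0 ≤ eval x p} :=
    measurableSet_le measurable_const (eval_measurable p)
  have e1 : μ.real {x | 0 ≤ eval x p}ᶜ ≤ μ.real {x | 0 ≤ eval x (-p)} := by
    apply measureReal_mono _ (measure_ne_top _ _)
    intro x hx
    have hx' : ¬ (0 ≤ eval x p) := hx
    show 0 ≤ eval x (-p)
    rw [map_neg]
    linarith [not_le.1 hx']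
  have e2 : (gam ι).real {x | 0 ≤ eval x (-p)} ≤ (gam ι).real {x | 0 ≤ eval x p}ᶜ := by
    have hsub : {x : ι → ℝ | 0 ≤ eval x (-p)} ⊆ {x | 0 ≤ eval x p}ᶜ ∪ {x | eval x p = 0} := by
      intro x hx
      have hx' : 0 ≤ eval x (-p) := hx
      rw [map_neg] at hx'
      by_cases h0 : eval x p = 0
      · right; exact h0
      · left
        show ¬ (0 ≤ eval x p)
        intro h3
        exact h0 (le_antisymm (by linarith) h3)
    calc (gam ι).real {x | 0 ≤ eval x (-p)}
        ≤ (gam ι).real ({x | 0 ≤ eval x p}ᶜ ∪ {x | eval x p = 0}) :=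
          measureReal_mono hsub (measure_ne_top _ _)
      _ ≤ (gam ι).real {x | 0 ≤ eval x p}ᶜ + (gam ι).real {x | eval x p = 0} :=
          measureReal_union_le _ _
      _ = _ := by rw [hz, add_zero]
  rw [probReal_compl_eq_one_sub hm0] at e1 e2
  rw [abs_le]
  constructor
  · linarith
  · linarith

theorem two_sided_gen3 {d Q : ℕ} (hd : 1 ≤ d)
    (p : MvPolynomial ι ℝ) (hp : p.totalDegree ≤ d) {N : ℕ}
    (hN : 2 ^ 82 * d ^ 2 * (Nat.log 2 d + 2) ^ 2 * 4 ^ Q ≤ N)
    (μ : Measure (ι → ℝ)) [IsProbabilityMeasure μ] (hμ : MM N μ) (hdN : 2 * d ≤ N) :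
    |μ.real {x | 0 ≤ eval x p} - (gam ι).real {x | 0 ≤ eval x p}| ≤ (1 / 2) ^ Q := by
  set m := ∫ y, eval y p ∂(gam ι) with hm
  set V := ∫ x, (eval x p - m) ^ 2 ∂(gam ι) with hV
  have hV0 : 0 ≤ V := integral_nonneg fun x => sq_nonneg _
  rcases hV0.eq_or_lt with h0 | hpos
  · -- the polynomial is almost surely constant
    set q : MvPolynomial ι ℝ := (p - C m) ^ 2 with hq
    have hqdeg : q.totalDegree ≤ N := by
      refine (MvPolynomial.totalDegree_pow _ _).trans (le_trans ?_ hdN)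
      refine Nat.mul_le_mul_left _ ?_
      refine (MvPolynomial.totalDegree_sub _ _).trans ?_
      simpa using hp
    have hqe : ∀ x : ι → ℝ, eval x q = (eval x p - m) ^ 2 := by intro x; simp [hq]
    have hconst : ∀ (ν : Measure (ι → ℝ)) [IsProbabilityMeasure ν], MM N ν →
        ∀ᵐ x ∂ν, eval x p = m := by
      intro ν _ hν
      have hint : Integrable (fun x => (eval x p - m) ^ 2) ν := by
        have := (hν q hqdeg).1
        simpa only [hqe] using this
      have heq : ∫ x, (eval x p - m) ^ 2 ∂ν = 0 := by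
        rw [h0, hV]
        have := (hν q hqdeg).2
        simpa only [hqe] using this
      have h1 := (integral_eq_zero_iff_of_nonneg (fun x => sq_nonneg _) hint).1 heq
      filter_upwards [h1] with x hx
      have hx' : (eval x p - m) ^ 2 = 0 := hx
      have := pow_eq_zero_iff (two_ne_zero) |>.1 hx'
      linarith
    have hval : ∀ (ν : Measure (ι → ℝ)) [IsProbabilityMeasure ν], MM N ν →
        ν.real {x | 0 ≤ eval x p} = if 0 ≤ m then 1 else 0 := by
      intro ν _ hν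
      have h1 := hconst ν hν
      by_cases hm0 : 0 ≤ m
      · rw [if_pos hm0]
        have : ν.real {x | 0 ≤ eval x p} = ν.real Set.univ := by
          apply measureReal_congr
          filter_upwards [h1] with x hx
          apply propext
          constructor
          · intro _; trivial
          · intro _
            show 0 ≤ eval x p
            rw [hx]; exact hm0
        rw [this, probReal_univ]
      · rw [if_neg hm0]
        have : ν.real {x | 0 ≤ eval x p} = ν.real ∅ := by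
          apply measureReal_congr
          filter_upwards [h1] with x hx
          apply propext
          constructor
          · intro h2
            have h3 : 0 ≤ eval x p := h2
            rw [hx] at h3
            exact hm0 h3
          · intro h2; exact absurd h2 (Set.notMem_empty x)
        rw [this, measureReal_empty]
    rw [hval μ hμ, hval (gam ι) (MM_gam N ι), sub_self, abs_zero]
    positivity
  · -- scale
    set c : ℝ := (√V)⁻¹ with hc
    have hsV : 0 < √V := Real.sqrt_pos.2 hpos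
    have hc0 : 0 < c := by positivity
    have hmn : ∫ y, eval y (C c * p) ∂(gam ι) = c * m := by
      simp only [map_mul, eval_C]
      rw [integral_const_mul]
    have hvar' : ∫ x, (eval x (C c * p) - ∫ y, eval y (C c * p) ∂(gam ι)) ^ 2 ∂(gam ι) = 1 := by
      rw [hmn]
      have e : (fun x : ι → ℝ => (eval x (C c * p) - c * m) ^ 2) =
          fun x => c ^ 2 * (eval x p - m) ^ 2 := by
        funext x
        simp only [map_mul, eval_C]
        ring
      rw [e, integral_const_mul, ← hV, hc, inv_pow, Real.sq_sqrt hV0]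
      exact inv_mul_cancel₀ hpos.ne'
    have hdeg : (C c * p).totalDegree ≤ d := by
      refine (MvPolynomial.totalDegree_mul _ _).trans ?_
      rw [MvPolynomial.totalDegree_C, zero_add]; exact hp
    have h1 := two_sided_norm3 hd (C c * p) hdeg hvar' hN μ hμ
    have e : {x : ι → ℝ | 0 ≤ eval x (C c * p)} = {x | 0 ≤ eval x p} := by
      ext x
      simp only [Set.mem_ofPred_eq, map_mul, eval_C]
      exact mul_nonneg_iff_of_pos_left hc0
    rw [e] at h1
    exact h1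

end Aux4

/-- The theorem, with dyadic accuracy. -/
theorem gen_pow3 {d Q : ℕ} (hd : 1 ≤ d) {k : ℕ}
    (hk : 2 ^ 82 * d ^ 2 * (Nat.log 2 d + 2) ^ 2 * 4 ^ Q ≤ k)
    (n : ℕ) (p : MvPolynomial (Fin n) ℝ) (hp : p.totalDegree ≤ d)
    (Ω : Type) [MeasurableSpace Ω] (P : Measure Ω) [IsProbabilityMeasure P]
    (X : Fin n → Ω → ℝ) (hX : KWiseGaussian P k n X) :
    |P.real {ω | 0 ≤ eval (fun i => X i ω) p} - (gam (Fin n)).real {z | 0 ≤ eval z p}| ≤
      (1 / 2) ^ Q := by
  have hXm : AEMeasurable (fun ω i => X i ω) P :=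
    aemeasurable_pi_iff.2 fun i => (hX.law i).aemeasurable
  set μ : Measure (Fin n → ℝ) := P.map (fun ω i => X i ω) with hμ
  have : IsProbabilityMeasure μ := Measure.isProbabilityMeasure_map hXm
  have hMM : MM k μ := mm_of_kwise P k n X hX
  have hdk : 2 * d ≤ k := by
    refine le_trans ?_ hk
    calc 2 * d = 2 ^ 1 * d ^ 1 * 1 ^ 2 * 1 := by ring
      _ ≤ 2 ^ 82 * d ^ 2 * (Nat.log 2 d + 2) ^ 2 * 4 ^ Q := by
          have h4 : 1 ≤ 4 ^ Q := Nat.one_le_pow _ _ (by norm_num)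
          gcongr <;> first | omega | norm_num
  have h := two_sided_gen3 hd p hp hk μ hMM hdk
  have hS : MeasurableSet {x : Fin n → ℝ | 0 ≤ eval x p} :=
    measurableSet_le measurable_const (eval_measurable p)
  have e1 : μ.real {x | 0 ≤ eval x p} = P.real {ω | 0 ≤ eval (fun i => X i ω) p} := by
    rw [hμ, measureReal_def, measureReal_def, Measure.map_apply_of_aemeasurable hXm hS]
    rfl
  rw [e1] at h
  exact h

theorem gen_eps3 : ∀ (d : ℕ), 1 ≤ d → ∀ ε : ℝ, 0 < ε → ε < 1 → ∀ k : ℕ,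
    2 ^ 82 * 36 * (d : ℝ) ^ 2 * Real.log (2 * d) ^ 2 / ε ^ 2 ≤ (k : ℝ) → Fools d ε k := by
  intro d hd ε hε hε1 k hk
  have hd0 : (0 : ℝ) < d := by exact_mod_cast hd
  have hd1 : (1 : ℝ) ≤ d := by exact_mod_cast hd
  have hl2 : 0 < Real.log 2 := Real.log_pos (by norm_num)
  have hl2' : (2 : ℝ) / 3 ≤ Real.log 2 := by
    have := Real.log_two_gt_d9; linarith
  -- Q
  obtain ⟨ℓ, hℓ⟩ : ∃ ℓ : ℝ, ℓ = Real.log (1 / ε) / Real.log 2 := ⟨_, rfl⟩
  have h1ε : 1 ≤ 1 / ε := by rw [le_div_iff₀ hε]; linarith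
  have hℓ0 : 0 ≤ ℓ := by
    rw [hℓ]
    exact div_nonneg (Real.log_nonneg h1ε) hl2.le
  obtain ⟨Q, hQ⟩ : ∃ Q : ℕ, Q = ⌈ℓ⌉₊ := ⟨_, rfl⟩
  have hQl : ℓ ≤ Q := by rw [hQ]; exact Nat.le_ceil ℓ
  have hQu : (Q : ℝ) ≤ ℓ + 1 := by rw [hQ]; exact (Nat.ceil_lt_add_one hℓ0).le
  have hpow : (2 : ℝ) ^ ℓ = 1 / ε := by
    rw [Real.rpow_def_of_pos (by norm_num), hℓ, mul_div_cancel₀ _ hl2.ne',
      Real.exp_log (by positivity)]
  have h2Q : (2 : ℝ) ^ Q ≤ 2 * (1 / ε) := by
    have : (2 : ℝ) ^ (Q : ℝ) ≤ 2 ^ (ℓ + 1) := Real.rpow_le_rpow_of_exponent_le (by norm_num) hQu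
    rw [Real.rpow_natCast, Real.rpow_add (by norm_num), hpow, Real.rpow_one] at this
    linarith
  have h2Q' : 1 / ε ≤ (2 : ℝ) ^ Q := by
    have : (2 : ℝ) ^ ℓ ≤ 2 ^ (Q : ℝ) := Real.rpow_le_rpow_of_exponent_le (by norm_num) hQl
    rw [Real.rpow_natCast, hpow] at this
    exact this
  have hεQ : ((1 : ℝ) / 2) ^ Q ≤ ε := by
    rw [one_div, inv_pow]
    rw [inv_le_comm₀ (by positivity) hε]
    simpa using h2Q'
  have h4Q : (4 : ℝ) ^ Q ≤ 4 / ε ^ 2 := by
    have e : (4 : ℝ) ^ Q = (2 ^ Q) ^ 2 := by rw [← pow_mul, mul_comm, pow_mul]; norm_num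
    rw [e]
    calc ((2 : ℝ) ^ Q) ^ 2 ≤ (2 * (1 / ε)) ^ 2 := by gcongr
      _ = 4 / ε ^ 2 := by field_simp; norm_num
  -- the logarithm of d
  have hlog : (Nat.log 2 d : ℝ) + 2 ≤ 3 * Real.log (2 * d) := by
    have h11 : ((2 : ℝ)) ^ (Nat.log 2 d) ≤ d := by
      exact_mod_cast Nat.pow_log_le_self 2 (by omega)
    have h12 : (Nat.log 2 d : ℝ) * Real.log 2 ≤ Real.log d := by
      have := Real.log_le_log (by positivity) h11
      rwa [Real.log_pow] at this
    have h13 : Real.log (2 * d) = Real.log 2 + Real.log d := by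
      rw [Real.log_mul (by norm_num) hd0.ne']
    have h14 : 0 ≤ Real.log d := Real.log_nonneg hd1
    have h15 : (0 : ℝ) ≤ Nat.log 2 d := Nat.cast_nonneg _
    rw [h13]
    nlinarith
  have hfin : 2 ^ 82 * d ^ 2 * (Nat.log 2 d + 2) ^ 2 * 4 ^ Q ≤ k := by
    have h16 : ((2 ^ 82 * d ^ 2 * (Nat.log 2 d + 2) ^ 2 * 4 ^ Q : ℕ) : ℝ) ≤ k := by
      refine le_trans ?_ hk
      simp only [Nat.cast_mul, Nat.cast_pow, Nat.cast_add, Nat.cast_ofNat]
      calc (2 : ℝ) ^ 82 * d ^ 2 * ((Nat.log 2 d : ℝ) + 2) ^ 2 * 4 ^ Q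
          ≤ 2 ^ 82 * d ^ 2 * (3 * Real.log (2 * d)) ^ 2 * (4 / ε ^ 2) := by gcongr
        _ = 2 ^ 82 * 36 * (d : ℝ) ^ 2 * Real.log (2 * d) ^ 2 / ε ^ 2 := by ring
    exact_mod_cast h16
  intro n p hp Ω _ P _ X hX
  exact (gen_pow3 hd hfin n p hp Ω P X hX).trans hεQ

end Pool.Agent.KWG
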