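import Mathlib

/-! Integrals in one real variable. -/

namespace Pool.Agent.KWG

open MeasureTheory

/-- The function `∫_0^∞ v³ (p(v-p))²/(A+v²)⁴ dv` of `ω = p/√A`. -/
noncomputable def GI (ω : ℝ) : ℝ := ω ^ 2 / 6 - (Real.pi / 16) * ω ^ 3 + ω ^ 4 / 12

/-- antiderivative for `int_main` -/
private noncomputable def jintPhi (p a : ℝ) (v : ℝ) : ℝ :=
  p ^ 2 * (v ^ 6 / (6 * a ^ 2 * (a ^ 2 + v ^ 2) ^ 3)
    - 2 * p * (-(v ^ 3 / (6 * (a ^ 2 + v ^ 2) ^ 3)) - v / (8 * (a ^ 2 + v ^ 2) ^ 2)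
      + (v / (16 * a ^ 2 * (a ^ 2 + v ^ 2)) + Real.arctan (v / a) / (16 * a ^ 3)))
    + p ^ 2 * (-(1 / (4 * (a ^ 2 + v ^ 2) ^ 2)) + a ^ 2 / (6 * (a ^ 2 + v ^ 2) ^ 3)))

private theorem jint_deriv {p a : ℝ} (ha : 0 < a) (v : ℝ) :
    HasDerivAt (jintPhi p a) (v ^ 3 * ((p * (v - p)) ^ 2 / (a ^ 2 + v ^ 2) ^ 4)) v := by
  have hs : 0 < a ^ 2 + v ^ 2 := by positivity
  have hS : HasDerivAt (fun v : ℝ => a ^ 2 + v ^ 2) (2 * v) v := by
    have := (hasDerivAt_pow 2 v).const_add (a ^ 2)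
    simpa using this
  have hv : HasDerivAt (fun v : ℝ => v) 1 v := hasDerivAt_id v
  have h1 : HasDerivAt (fun v : ℝ => v ^ 6 / (6 * a ^ 2 * (a ^ 2 + v ^ 2) ^ 3)) _ v :=
    (hasDerivAt_pow 6 v).div ((hS.pow 3).const_mul (6 * a ^ 2)) (by positivity)
  have h2 : HasDerivAt (fun v : ℝ => v ^ 3 / (6 * (a ^ 2 + v ^ 2) ^ 3)) _ v :=
    (hasDerivAt_pow 3 v).div ((hS.pow 3).const_mul 6) (by positivity)
  have h3 : HasDerivAt (fun v : ℝ => v / (8 * (a ^ 2 + v ^ 2) ^ 2)) _ v :=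
    hv.div ((hS.pow 2).const_mul 8) (by positivity)
  have h4 : HasDerivAt (fun v : ℝ => v / (16 * a ^ 2 * (a ^ 2 + v ^ 2))) _ v :=
    hv.div (hS.const_mul (16 * a ^ 2)) (by positivity)
  have h5 : HasDerivAt (fun v : ℝ => Real.arctan (v / a) / (16 * a ^ 3)) _ v :=
    ((hv.div_const a).arctan).div_const (16 * a ^ 3)
  have h6 : HasDerivAt (fun v : ℝ => 1 / (4 * (a ^ 2 + v ^ 2) ^ 2)) _ v :=
    (hasDerivAt_const v (1 : ℝ)).div ((hS.pow 2).const_mul 4) (by positivity)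
  have h7 : HasDerivAt (fun v : ℝ => a ^ 2 / (6 * (a ^ 2 + v ^ 2) ^ 3)) _ v :=
    (hasDerivAt_const v (a ^ 2 : ℝ)).div ((hS.pow 3).const_mul 6) (by positivity)
  have h8 : HasDerivAt (fun v : ℝ => p ^ 2 * (v ^ 6 / (6 * a ^ 2 * (a ^ 2 + v ^ 2) ^ 3)
    - 2 * p * (-(v ^ 3 / (6 * (a ^ 2 + v ^ 2) ^ 3)) - v / (8 * (a ^ 2 + v ^ 2) ^ 2)
      + (v / (16 * a ^ 2 * (a ^ 2 + v ^ 2)) + Real.arctan (v / a) / (16 * a ^ 3)))
    + p ^ 2 * (-(1 / (4 * (a ^ 2 + v ^ 2) ^ 2)) + a ^ 2 / (6 * (a ^ 2 + v ^ 2) ^ 3)))) _ v :=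
    (((h1.sub (((h2.neg.sub h3).add (h4.add h5)).const_mul (2 * p))).add
      ((h6.neg.add h7).const_mul (p ^ 2))).const_mul (p ^ 2))
  refine h8.congr_deriv ?_
  have hone : 1 + (v / a) ^ 2 = (a ^ 2 + v ^ 2) / a ^ 2 := by
    field_simp
  simp only [hone]
  push_cast
  field_simp
  ring

private theorem jint_lim {p a : ℝ} (ha : 0 < a) :
    Filter.Tendsto (jintPhi p a) Filter.atTop
      (nhds (p ^ 2 * (1 / (6 * a ^ 2) - 2 * p * ((Real.pi / 2) / (16 * a ^ 3))))) := by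
  have hinv : Filter.Tendsto (fun v : ℝ => v⁻¹) Filter.atTop (nhds 0) := tendsto_inv_atTop_zero
  -- everything in terms of w = 1/v
  have hcont : ContinuousAt (fun w : ℝ => p ^ 2 * (1 / (6 * a ^ 2 * (a ^ 2 * w ^ 2 + 1) ^ 3)
    - 2 * p * (-(w ^ 3 / (6 * (a ^ 2 * w ^ 2 + 1) ^ 3)) - w ^ 3 / (8 * (a ^ 2 * w ^ 2 + 1) ^ 2)
      + (w / (16 * a ^ 2 * (a ^ 2 * w ^ 2 + 1)) + (Real.pi / 2 - Real.arctan (a * w)) / (16 * a ^ 3)))
    + p ^ 2 * (-(w ^ 4 / (4 * (a ^ 2 * w ^ 2 + 1) ^ 2)) +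
      a ^ 2 * w ^ 6 / (6 * (a ^ 2 * w ^ 2 + 1) ^ 3)))) 0 := by
    have harc : ContinuousAt (fun w : ℝ => Real.arctan (a * w)) 0 :=
      (Real.continuous_arctan.comp (continuous_const.mul continuous_id)).continuousAt
    have hne : (a ^ 2 * (0 : ℝ) ^ 2 + 1) ≠ 0 := by positivity
    fun_prop (disch := first | positivity | simp [ha.ne'])
  have h1 := hcont.tendsto.comp hinv
  have h2 : p ^ 2 * (1 / (6 * a ^ 2 * (a ^ 2 * (0 : ℝ) ^ 2 + 1) ^ 3)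
    - 2 * p * (-((0 : ℝ) ^ 3 / (6 * (a ^ 2 * (0 : ℝ) ^ 2 + 1) ^ 3)) -
        (0 : ℝ) ^ 3 / (8 * (a ^ 2 * (0 : ℝ) ^ 2 + 1) ^ 2)
      + (0 / (16 * a ^ 2 * (a ^ 2 * (0 : ℝ) ^ 2 + 1)) +
        (Real.pi / 2 - Real.arctan (a * 0)) / (16 * a ^ 3)))
    + p ^ 2 * (-((0 : ℝ) ^ 4 / (4 * (a ^ 2 * (0 : ℝ) ^ 2 + 1) ^ 2)) +
      a ^ 2 * (0 : ℝ) ^ 6 / (6 * (a ^ 2 * (0 : ℝ) ^ 2 + 1) ^ 3))) =
      p ^ 2 * (1 / (6 * a ^ 2) - 2 * p * ((Real.pi / 2) / (16 * a ^ 3))) := by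
    simp
  rw [h2] at h1
  refine h1.congr' ?_
  filter_upwards [Filter.eventually_gt_atTop (0 : ℝ)] with v hv
  simp only [Function.comp_apply, jintPhi]
  have harc : Real.arctan (v / a) = Real.pi / 2 - Real.arctan (a * v⁻¹) := by
    have h3 : a * v⁻¹ = (v / a)⁻¹ := by
      rw [inv_div, div_eq_mul_inv]
    rw [h3, Real.arctan_inv_of_pos (div_pos hv ha)]
    ring
  have hw : a ^ 2 * v⁻¹ ^ 2 + 1 = (a ^ 2 + v ^ 2) / v ^ 2 := by
    field_simp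
  rw [harc, hw]
  have hs : 0 < a ^ 2 + v ^ 2 := by positivity
  field_simp

theorem int_main {p A : ℝ} (hA : 0 ≤ A) (hp : p ^ 2 ≤ A) :
    IntegrableOn (fun v : ℝ => v ^ 3 * ((p * (v - p)) ^ 2 / (A + v ^ 2) ^ 4)) (Set.Ioi 0) ∧
    ∫ v in Set.Ioi (0 : ℝ), v ^ 3 * ((p * (v - p)) ^ 2 / (A + v ^ 2) ^ 4) = GI (p / √A) := by
  rcases hA.eq_or_lt with hA0 | hA0
  · have hp0 : p = 0 := by
      have : p ^ 2 ≤ 0 := by rw [hA0]; exact hp
      exact pow_eq_zero_iff (two_ne_zero) |>.mp (le_antisymm this (sq_nonneg p))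
    subst hp0
    simp [GI]
  · set a := √A with ha
    have ha0 : 0 < a := Real.sqrt_pos.mpr hA0
    have haA : A = a ^ 2 := (Real.sq_sqrt hA).symm
    rw [haA]
    have hderiv : ∀ x ∈ Set.Ioi (0 : ℝ), HasDerivAt (jintPhi p a)
        (x ^ 3 * ((p * (x - p)) ^ 2 / (a ^ 2 + x ^ 2) ^ 4)) x := fun x _ => jint_deriv ha0 x
    have hcont : ContinuousWithinAt (jintPhi p a) (Set.Ici 0) 0 :=
      (jint_deriv (p := p) ha0 0).continuousAt.continuousWithinAt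
    have hpos : ∀ x ∈ Set.Ioi (0 : ℝ), 0 ≤ x ^ 3 * ((p * (x - p)) ^ 2 / (a ^ 2 + x ^ 2) ^ 4) := by
      intro x hx
      have : 0 < x := hx
      positivity
    refine ⟨integrableOn_Ioi_deriv_of_nonneg hcont hderiv hpos (jint_lim ha0), ?_⟩
    rw [integral_Ioi_of_hasDerivAt_of_nonneg hcont hderiv hpos (jint_lim ha0)]
    simp only [jintPhi, GI]
    have harc0 : Real.arctan (0 / a) = 0 := by rw [zero_div, Real.arctan_zero]
    rw [harc0]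
    field_simp
    ring

theorem int_err {A σ : ℝ} (hA : 0 ≤ A) (hσ : 0 ≤ σ) (hσA : σ ≤ A) :
    IntegrableOn (fun v : ℝ => v ^ 3 * (σ / (A + v ^ 2) ^ 3)) (Set.Ioi 0) ∧
    ∫ v in Set.Ioi (0 : ℝ), v ^ 3 * (σ / (A + v ^ 2) ^ 3) = σ / (4 * A) := by
  rcases hA.eq_or_lt with hA0 | hA0
  · have hσ0 : σ = 0 := le_antisymm (by rw [← hA0] at hσA; exact hσA) hσ
    subst hσ0
    simp
  · have hderiv : ∀ x ∈ Set.Ioi (0 : ℝ), HasDerivAt
        (fun v : ℝ => σ * (v ^ 4 / (4 * A * (A + v ^ 2) ^ 2)))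
        (x ^ 3 * (σ / (A + x ^ 2) ^ 3)) x := by
      intro x _
      have hs : 0 < A + x ^ 2 := by positivity
      have hS : HasDerivAt (fun v : ℝ => A + v ^ 2) (2 * x) x := by
        have := (hasDerivAt_pow 2 x).const_add A
        simpa using this
      have h0 : HasDerivAt (fun v : ℝ => 4 * A * (A + v ^ 2) ^ 2)
          (4 * A * (2 * (A + x ^ 2) * (2 * x))) x := by
        refine ((hS.pow 2).const_mul (4 * A)).congr_deriv ?_
        push_cast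
        ring
      have h1 : HasDerivAt (fun v : ℝ => σ * (v ^ 4 / (4 * A * (A + v ^ 2) ^ 2))) _ x :=
        ((hasDerivAt_pow 4 x).div h0 (by positivity)).const_mul σ
      refine h1.congr_deriv ?_
      push_cast
      field_simp
      ring
    have hcont : ContinuousWithinAt (fun v : ℝ => σ * (v ^ 4 / (4 * A * (A + v ^ 2) ^ 2)))
        (Set.Ici 0) 0 := by
      apply Continuous.continuousWithinAt
      refine continuous_const.mul (Continuous.div (by fun_prop) (by fun_prop) fun v => ?_)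
      positivity
    have hpos : ∀ x ∈ Set.Ioi (0 : ℝ), 0 ≤ x ^ 3 * (σ / (A + x ^ 2) ^ 3) := by
      intro x hx
      have : 0 < x := hx
      positivity
    have hlim : Filter.Tendsto (fun v : ℝ => σ * (v ^ 4 / (4 * A * (A + v ^ 2) ^ 2)))
        Filter.atTop (nhds (σ * (1 / (4 * A)))) := by
      have hinv : Filter.Tendsto (fun v : ℝ => v⁻¹) Filter.atTop (nhds 0) := tendsto_inv_atTop_zero
      have hc : Continuous (fun w : ℝ => σ * (1 / (4 * A * (A * w ^ 2 + 1) ^ 2))) := by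
        refine continuous_const.mul (Continuous.div (by fun_prop) (by fun_prop) fun w => ?_)
        positivity
      have h1 := (hc.tendsto 0).comp hinv
      have h2 : σ * (1 / (4 * A * (A * (0 : ℝ) ^ 2 + 1) ^ 2)) = σ * (1 / (4 * A)) := by simp
      rw [h2] at h1
      refine h1.congr' ?_
      filter_upwards [Filter.eventually_gt_atTop (0 : ℝ)] with v hv
      simp only [Function.comp_apply]
      have hw : A * v⁻¹ ^ 2 + 1 = (A + v ^ 2) / v ^ 2 := by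
        field_simp
      rw [hw]
      have hs : 0 < A + v ^ 2 := by positivity
      field_simp
    refine ⟨integrableOn_Ioi_deriv_of_nonneg hcont hderiv hpos hlim, ?_⟩
    rw [integral_Ioi_of_hasDerivAt_of_nonneg hcont hderiv hpos hlim]
    simp
    ring

private theorem jint_formula (ω : ℝ) : 1 / 2 + 2 / Real.pi - (8 / Real.pi) * GI ω =
    (1 + ω ^ 3) / 2 + (2 / Real.pi) * ((1 - ω ^ 2) * (1 + ω ^ 2 / 3)) := by
  have hpi := Real.pi_ne_zero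
  unfold GI
  field_simp
  ring

private theorem jint_two_pi : 0.63 ≤ 2 / Real.pi ∧ 2 / Real.pi ≤ 1 := by
  have h1 := Real.pi_gt_three
  have h2 := Real.pi_lt_d2
  have h3 := Real.pi_pos
  constructor
  · rw [le_div_iff₀ h3]
    linarith
  · rw [div_le_one h3]
    linarith

theorem gi_lower {ω : ℝ} (h1 : -1 ≤ ω) (h2 : ω ≤ 1) :
    (if 0 ≤ ω then (1 : ℝ) else 0) ≤ 1 / 2 + 2 / Real.pi - (8 / Real.pi) * GI ω := by
  rw [jint_formula]
  obtain ⟨hc1, hc2⟩ := jint_two_pi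
  set c := 2 / Real.pi with hc
  have hω2 : 0 ≤ 1 - ω ^ 2 := by nlinarith
  split_ifs with h
  · have key : 0 ≤ (1 - ω) * (0.63 * ((1 + ω) * (1 + ω ^ 2 / 3)) - (1 + ω + ω ^ 2) / 2) := by
      apply mul_nonneg (by linarith)
      nlinarith [mul_nonneg h (sub_nonneg.mpr h2), mul_nonneg h h,
        mul_nonneg (mul_nonneg h h) (sub_nonneg.mpr h2), sq_nonneg (ω - 1), sq_nonneg ω,
        mul_nonneg h (sq_nonneg (1 - ω))]
    have h3 : 0.63 * ((1 - ω ^ 2) * (1 + ω ^ 2 / 3)) ≤ c * ((1 - ω ^ 2) * (1 + ω ^ 2 / 3)) :=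
      mul_le_mul_of_nonneg_right hc1 (mul_nonneg hω2 (by positivity))
    nlinarith
  · have h3 : 0 ≤ c * ((1 - ω ^ 2) * (1 + ω ^ 2 / 3)) :=
      mul_nonneg (by linarith) (mul_nonneg hω2 (by positivity))
    have h4 : 0 ≤ 1 + ω ^ 3 := by
      have : 1 + ω ^ 3 = (1 + ω) * (1 - ω + ω ^ 2) := by ring
      rw [this]
      apply mul_nonneg (by linarith)
      nlinarith [sq_nonneg (ω - 1 / 2)]
    linarith

theorem gi_upper {ω : ℝ} (h1 : -1 ≤ ω) (h2 : ω ≤ 1) :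
    1 / 2 + 2 / Real.pi - (8 / Real.pi) * GI ω ≤
      (if 0 ≤ ω then (1 : ℝ) else 0) + 3 * (1 - ω ^ 2) := by
  rw [jint_formula]
  obtain ⟨hc1, hc2⟩ := jint_two_pi
  set c := 2 / Real.pi with hc
  have hω2 : 0 ≤ 1 - ω ^ 2 := by nlinarith
  have hω2' : ω ^ 2 ≤ 1 := by linarith
  have h3 : c * ((1 - ω ^ 2) * (1 + ω ^ 2 / 3)) ≤ 1 * ((1 - ω ^ 2) * (1 + ω ^ 2 / 3)) :=
    mul_le_mul_of_nonneg_right hc2 (mul_nonneg hω2 (by positivity))
  have h4 : (1 - ω ^ 2) * (1 + ω ^ 2 / 3) ≤ (1 - ω ^ 2) * (4 / 3) :=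
    mul_le_mul_of_nonneg_left (by linarith) hω2
  split_ifs with h
  · have h5 : ω ^ 3 ≤ 1 := pow_le_one₀ h h2
    linarith
  · have h6 : (1 + ω ^ 3) / 2 ≤ 3 / 4 * (1 - ω ^ 2) := by
      have h7 : 0 ≤ (1 + ω) * (3 / 4 * (1 - ω) - (1 - ω + ω ^ 2) / 2) := by
        apply mul_nonneg (by linarith)
        nlinarith
      nlinarith
    linarith

end Pool.Agent.KWG
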