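import Pool.Agent.Lib.MP_68391b_lc.Gen.GDefs
import Pool.Agent.Lib.MP_68391b_lc.Jk.JInt

/-! Fubini for the integral over the scales. -/

set_option linter.unusedSectionVars false

namespace Pool.Agent.KWG

open MeasureTheory ProbabilityTheory MvPolynomial Pool.Agent.KWI

variable {ι : Type} [Fintype ι] [DecidableEq ι]

/-- Fubini for nonnegative functions with bounded inner integrals. -/
theorem jfub_gen {Ω : Type} [MeasurableSpace Ω] (ν : Measure Ω) [IsProbabilityMeasure ν]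
    (F : ℝ → Ω → ℝ) (G : Ω → ℝ) (K : ℝ) (hm : Measurable (fun z : ℝ × Ω => F z.1 z.2))
    (h0 : ∀ v x, 0 < v → 0 ≤ F v x)
    (hi : ∀ x, IntegrableOn (fun v => F v x) (Set.Ioi 0))
    (hG : ∀ x, ∫ v in Set.Ioi (0 : ℝ), F v x = G x) (hK : ∀ x, |G x| ≤ K) :
    IntegrableOn (fun v : ℝ => ∫ x, F v x ∂ν) (Set.Ioi 0) ∧
      ∫ v in Set.Ioi (0 : ℝ), ∫ x, F v x ∂ν = ∫ x, G x ∂ν := by
  have hms : AEStronglyMeasurable (fun z : ℝ × Ω => F z.1 z.2)
      ((volume.restrict (Set.Ioi (0 : ℝ))).prod ν) := hm.aestronglyMeasurable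
  have hnorm : ∀ x, ∫ v in Set.Ioi (0 : ℝ), ‖F v x‖ = G x := by
    intro x
    rw [← hG x]
    refine setIntegral_congr_fun measurableSet_Ioi ?_
    intro v hv
    exact Real.norm_of_nonneg (h0 v x hv)
  have hGm : AEStronglyMeasurable G ν := by
    have h1 : AEStronglyMeasurable (fun x => ∫ v, (fun z : ℝ × Ω => F z.1 z.2) (v, x)
        ∂(volume.restrict (Set.Ioi (0 : ℝ)))) ν := hms.prod_swap.integral_prod_right'
    refine h1.congr (Filter.Eventually.of_forall fun x => ?_)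
    exact hG x
  have hGi : Integrable G ν := by
    refine Integrable.mono' (integrable_const K) hGm (Filter.Eventually.of_forall fun x => ?_)
    rw [Real.norm_eq_abs]
    exact hK x
  have hint : Integrable (fun z : ℝ × Ω => F z.1 z.2)
      ((volume.restrict (Set.Ioi (0 : ℝ))).prod ν) := by
    rw [integrable_prod_iff' hms]
    refine ⟨Filter.Eventually.of_forall fun x => hi x, ?_⟩
    refine hGi.congr (Filter.Eventually.of_forall fun x => ?_)
    exact (hnorm x).symm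
  refine ⟨hint.integral_prod_left, ?_⟩
  rw [integral_integral_swap (f := F) hint]
  exact integral_congr_ae (Filter.Eventually.of_forall fun x => hG x)

theorem jfub_eval_ap (d : ℕ) (ρ v : ℝ) (p : MvPolynomial ι ℝ) (x : ι → ℝ) :
    eval x (AP d ρ v p) = ((eval x p) ^ 2 + eval x (VP d ρ p)) + v ^ 2 := by
  simp only [AP, map_add, map_pow, eval_C]

theorem jfub_gi_bound {ω : ℝ} (h : |ω| ≤ 1) : |GI ω| ≤ 1 := by
  have hpi := Real.pi_le_four
  have hpi0 := Real.pi_pos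
  have h2 : ω ^ 2 ≤ 1 := by
    rw [← sq_abs]
    exact pow_le_one₀ (abs_nonneg _) h
  have h4 : ω ^ 4 ≤ 1 := by
    have : ω ^ 4 = (ω ^ 2) ^ 2 := by ring
    rw [this]
    exact pow_le_one₀ (sq_nonneg _) h2
  have h3 : |ω ^ 3| ≤ 1 := by
    rw [abs_pow]
    exact pow_le_one₀ (abs_nonneg _) h
  have h3' : |Real.pi / 16 * ω ^ 3| ≤ 1 / 4 := by
    rw [abs_mul, abs_of_pos (by positivity)]
    calc Real.pi / 16 * |ω ^ 3| ≤ 4 / 16 * 1 := by
          apply mul_le_mul _ h3 (abs_nonneg _) (by norm_num)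
          linarith
      _ = 1 / 4 := by norm_num
  have h3a := abs_le.1 h3'
  unfold GI
  rw [abs_le]
  constructor
  · nlinarith [sq_nonneg ω, sq_nonneg (ω ^ 2)]
  · nlinarith [sq_nonneg ω, sq_nonneg (ω ^ 2)]

theorem fub_main (ν : Measure (ι → ℝ)) [IsProbabilityMeasure ν] (d : ℕ) (ρ : ℝ)
    (p : MvPolynomial ι ℝ) :
    IntegrableOn (fun v : ℝ => v ^ 3 * ∫ x, (eval x (p * (C v - p))) ^ 2 /
      (eval x (AP d ρ v p)) ^ 4 ∂ν) (Set.Ioi 0) ∧
    ∫ v in Set.Ioi (0 : ℝ), v ^ 3 * ∫ x, (eval x (p * (C v - p))) ^ 2 /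
      (eval x (AP d ρ v p)) ^ 4 ∂ν =
      ∫ x, GI (eval x p / √((eval x p) ^ 2 + eval x (VP d ρ p))) ∂ν := by
  have e1 : (fun v : ℝ => v ^ 3 * ∫ x, (eval x (p * (C v - p))) ^ 2 /
      (eval x (AP d ρ v p)) ^ 4 ∂ν) = fun v : ℝ => ∫ x, v ^ 3 * ((eval x p * (v - eval x p)) ^ 2 /
      (((eval x p) ^ 2 + eval x (VP d ρ p)) + v ^ 2) ^ 4) ∂ν := by
    funext v
    rw [← integral_const_mul]
    refine integral_congr_ae (Filter.Eventually.of_forall fun x => ?_)
    simp only [jfub_eval_ap, map_mul, map_sub, eval_C]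
  have hA : ∀ x : ι → ℝ, 0 ≤ (eval x p) ^ 2 + eval x (VP d ρ p) := fun x =>
    add_nonneg (sq_nonneg _) (vp_nonneg d ρ p x)
  have hpA : ∀ x : ι → ℝ, (eval x p) ^ 2 ≤ (eval x p) ^ 2 + eval x (VP d ρ p) := fun x =>
    le_add_of_nonneg_right (vp_nonneg d ρ p x)
  rw [e1]
  refine jfub_gen ν (fun v x => v ^ 3 * ((eval x p * (v - eval x p)) ^ 2 /
      (((eval x p) ^ 2 + eval x (VP d ρ p)) + v ^ 2) ^ 4)) _ 1 ?_ ?_ ?_ ?_ ?_
  · have m1 : Measurable (fun z : ℝ × (ι → ℝ) => eval z.2 p) :=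
      (eval_measurable p).comp measurable_snd
    have m2 : Measurable (fun z : ℝ × (ι → ℝ) => eval z.2 (VP d ρ p)) :=
      (eval_measurable (VP d ρ p)).comp measurable_snd
    have m3 : Measurable (fun z : ℝ × (ι → ℝ) => z.1) := measurable_fst
    exact (m3.pow_const 3).mul (((m1.mul (m3.sub m1)).pow_const 2).div
      ((((m1.pow_const 2).add m2).add (m3.pow_const 2)).pow_const 4))
  · intro v x hv
    have := hA x
    positivity
  · intro x
    exact (int_main (hA x) (hpA x)).1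
  · intro x
    exact (int_main (hA x) (hpA x)).2
  · intro x
    apply jfub_gi_bound
    rw [abs_div, abs_of_nonneg (Real.sqrt_nonneg _)]
    apply div_le_one_of_le₀ _ (Real.sqrt_nonneg _)
    exact Real.abs_le_sqrt (hpA x)

theorem fub_err (d : ℕ) (ρ : ℝ) (p : MvPolynomial ι ℝ) :
    IntegrableOn (fun v : ℝ => v ^ 3 * ∫ x, eval x (VP d ρ p) /
      (eval x (AP d ρ v p)) ^ 3 ∂(gam ι)) (Set.Ioi 0) ∧
    ∫ v in Set.Ioi (0 : ℝ), v ^ 3 * ∫ x, eval x (VP d ρ p) /
      (eval x (AP d ρ v p)) ^ 3 ∂(gam ι) =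
      (1 / 4) * ∫ x, eval x (VP d ρ p) / ((eval x p) ^ 2 + eval x (VP d ρ p)) ∂(gam ι) := by
  have e1 : (fun v : ℝ => v ^ 3 * ∫ x, eval x (VP d ρ p) /
      (eval x (AP d ρ v p)) ^ 3 ∂(gam ι)) = fun v : ℝ => ∫ x, v ^ 3 * (eval x (VP d ρ p) /
      (((eval x p) ^ 2 + eval x (VP d ρ p)) + v ^ 2) ^ 3) ∂(gam ι) := by
    funext v
    rw [← integral_const_mul]
    refine integral_congr_ae (Filter.Eventually.of_forall fun x => ?_)
    simp only [jfub_eval_ap]
  have hV : ∀ x : ι → ℝ, 0 ≤ eval x (VP d ρ p) := fun x => vp_nonneg d ρ p x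
  have hA : ∀ x : ι → ℝ, 0 ≤ (eval x p) ^ 2 + eval x (VP d ρ p) := fun x =>
    add_nonneg (sq_nonneg _) (hV x)
  have hVA : ∀ x : ι → ℝ, eval x (VP d ρ p) ≤ (eval x p) ^ 2 + eval x (VP d ρ p) := fun x =>
    le_add_of_nonneg_left (sq_nonneg _)
  have e2 : (1 / 4) * ∫ x, eval x (VP d ρ p) / ((eval x p) ^ 2 + eval x (VP d ρ p)) ∂(gam ι) =
      ∫ x, eval x (VP d ρ p) / (4 * ((eval x p) ^ 2 + eval x (VP d ρ p))) ∂(gam ι) := by
    rw [← integral_const_mul]
    refine integral_congr_ae (Filter.Eventually.of_forall fun x => ?_)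
    show (1 / 4) * (eval x (VP d ρ p) / ((eval x p) ^ 2 + eval x (VP d ρ p))) =
      eval x (VP d ρ p) / (4 * ((eval x p) ^ 2 + eval x (VP d ρ p)))
    rw [div_mul_div_comm, one_mul]
  rw [e1, e2]
  refine jfub_gen (gam ι) (fun v x => v ^ 3 * (eval x (VP d ρ p) /
      (((eval x p) ^ 2 + eval x (VP d ρ p)) + v ^ 2) ^ 3)) _ 1 ?_ ?_ ?_ ?_ ?_
  · have m1 : Measurable (fun z : ℝ × (ι → ℝ) => eval z.2 p) :=
      (eval_measurable p).comp measurable_snd
    have m2 : Measurable (fun z : ℝ × (ι → ℝ) => eval z.2 (VP d ρ p)) :=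
      (eval_measurable (VP d ρ p)).comp measurable_snd
    have m3 : Measurable (fun z : ℝ × (ι → ℝ) => z.1) := measurable_fst
    exact (m3.pow_const 3).mul (m2.div
      ((((m1.pow_const 2).add m2).add (m3.pow_const 2)).pow_const 3))
  · intro v x hv
    have h1 := hA x
    have h2 := hV x
    positivity
  · intro x
    exact (int_err (hA x) (hV x) (hVA x)).1
  · intro x
    exact (int_err (hA x) (hV x) (hVA x)).2
  · intro x
    have h1 := hA x
    have h2 := hV x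
    rw [abs_of_nonneg (by positivity)]
    apply div_le_one_of_le₀ _ (by positivity)
    linarith [hVA x]

end Pool.Agent.KWG
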