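import Pool.Agent.Lib.MP_68391b_lc.Jk.JWave
import Pool.Agent.Lib.MP_68391b_lc.Jk.JCoef

/-! The weighted Jackson inequality. -/

set_option linter.unusedSectionVars false

namespace Pool.Agent.KWG

open MeasureTheory ProbabilityTheory MvPolynomial Pool.Agent.KWI

variable {ι : Type} [Fintype ι] [DecidableEq ι]

/-- Coefficients of `l / B²`. -/
noncomputable def jbc (B l : MvPolynomial ι ℝ) (α : ι → ℕ) : ℝ :=
  ∫ x, eval x (l * hp α) / (eval x B) ^ 2 ∂(gam ι)

theorem jmu_pair {B : MvPolynomial ι ℝ} {w₂ : ℝ} (hw : 0 < w₂) (hB : ∀ x, w₂ ≤ eval x B)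
    (l g : MvPolynomial ι ℝ) (N : ℕ) (ψ : ℕ → ℝ) :
    ∫ x, eval x (l * Mu N ψ g) / (eval x B) ^ 2 ∂(gam ι) =
      ∑ k ∈ Finset.range (N + 1), ∑ α ∈ lev ι k, ψ k * hc g α * jbc B l α := by
  have e : (fun x : ι → ℝ => eval x (l * Mu N ψ g) / (eval x B) ^ 2) =
      fun x => ∑ k ∈ Finset.range (N + 1), ∑ α ∈ lev ι k,
        (ψ k * hc g α) * (eval x (l * hp α) / (eval x B) ^ 2) := by
    funext x
    unfold Mu
    simp only [map_mul, map_sum, eval_C, Finset.mul_sum, Finset.sum_div]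
    refine Finset.sum_congr rfl fun k _ => Finset.sum_congr rfl fun α _ => ?_
    ring
  rw [e, integral_finsetSum _ fun k _ => integrable_finsetSum _ fun α _ =>
    (div_integrable hw hB _ 2).const_mul _]
  refine Finset.sum_congr rfl fun k _ => ?_
  rw [integral_finsetSum _ fun α _ => (div_integrable hw hB _ 2).const_mul _]
  refine Finset.sum_congr rfl fun α _ => ?_
  rw [integral_const_mul]
  rfl

theorem jcs {B : MvPolynomial ι ℝ} {w₂ : ℝ} (hw : 0 < w₂) (hB : ∀ x, w₂ ≤ eval x B)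
    (a b : ι → MvPolynomial ι ℝ) :
    (∫ x, (∑ j, eval x (a j) * eval x (b j)) / (eval x B) ^ 3 ∂(gam ι)) ^ 2 ≤
      (∫ x, (∑ j, (eval x (a j)) ^ 2) / (eval x B) ^ 4 ∂(gam ι)) *
        ∫ x, (∑ j, (eval x (b j)) ^ 2) / (eval x B) ^ 2 ∂(gam ι) := by
  set X := ∫ x, (∑ j, (eval x (a j)) ^ 2) / (eval x B) ^ 4 ∂(gam ι) with hX
  set Y := ∫ x, (∑ j, (eval x (b j)) ^ 2) / (eval x B) ^ 2 ∂(gam ι) with hY
  set Z := ∫ x, (∑ j, eval x (a j) * eval x (b j)) / (eval x B) ^ 3 ∂(gam ι) with hZ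
  have hBx : ∀ x : ι → ℝ, 0 < eval x B := fun x => hw.trans_le (hB x)
  have i1 : Integrable (fun x : ι → ℝ => (∑ j, (eval x (a j)) ^ 2) / (eval x B) ^ 4)
      (gam ι) := by
    have := div_integrable hw hB (∑ j, (a j) ^ 2) 4
    simpa using this
  have i2 : Integrable (fun x : ι → ℝ => (∑ j, (eval x (b j)) ^ 2) / (eval x B) ^ 2)
      (gam ι) := by
    have := div_integrable hw hB (∑ j, (b j) ^ 2) 2
    simpa using this
  have i3 : Integrable (fun x : ι → ℝ => (∑ j, eval x (a j) * eval x (b j)) / (eval x B) ^ 3)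
      (gam ι) := by
    have := div_integrable hw hB (∑ j, a j * b j) 3
    simpa using this
  have key : ∀ r : ℝ, 0 ≤ Y * (r * r) + 2 * Z * r + X := by
    intro r
    have h0 : 0 ≤ ∫ x, ((∑ j, (eval x (b j)) ^ 2) / (eval x B) ^ 2 * (r * r) +
        2 * r * ((∑ j, eval x (a j) * eval x (b j)) / (eval x B) ^ 3) +
        (∑ j, (eval x (a j)) ^ 2) / (eval x B) ^ 4) ∂(gam ι) := by
      refine integral_nonneg fun x => ?_
      show 0 ≤ (∑ j, (eval x (b j)) ^ 2) / (eval x B) ^ 2 * (r * r) +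
        2 * r * ((∑ j, eval x (a j) * eval x (b j)) / (eval x B) ^ 3) +
        (∑ j, (eval x (a j)) ^ 2) / (eval x B) ^ 4
      have e : (∑ j, (eval x (b j)) ^ 2) / (eval x B) ^ 2 * (r * r) +
        2 * r * ((∑ j, eval x (a j) * eval x (b j)) / (eval x B) ^ 3) +
        (∑ j, (eval x (a j)) ^ 2) / (eval x B) ^ 4 =
        ∑ j, (r * eval x (b j) / eval x B + eval x (a j) / (eval x B) ^ 2) ^ 2 := by
        rw [Finset.sum_div, Finset.sum_div, Finset.sum_div, Finset.sum_mul, Finset.mul_sum,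
          ← Finset.sum_add_distrib, ← Finset.sum_add_distrib]
        refine Finset.sum_congr rfl fun j _ => ?_
        have := (hBx x).ne'
        field_simp
        ring
      rw [e]
      exact Finset.sum_nonneg fun j _ => sq_nonneg _
    have i23 : Integrable (fun x : ι → ℝ => (∑ j, (eval x (b j)) ^ 2) / (eval x B) ^ 2 * (r * r) +
        2 * r * ((∑ j, eval x (a j) * eval x (b j)) / (eval x B) ^ 3)) (gam ι) :=
      (i2.mul_const _).add (i3.const_mul _)
    have e3 : ∫ x, ((∑ j, (eval x (b j)) ^ 2) / (eval x B) ^ 2 * (r * r) +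
        2 * r * ((∑ j, eval x (a j) * eval x (b j)) / (eval x B) ^ 3) +
        (∑ j, (eval x (a j)) ^ 2) / (eval x B) ^ 4) ∂(gam ι) =
        Y * (r * r) + 2 * r * Z + X := by
      rw [integral_add i23 i1, integral_add (i2.mul_const _) (i3.const_mul _),
        integral_mul_const, integral_const_mul]
    have e2 : Y * (r * r) + 2 * Z * r + X = Y * (r * r) + 2 * r * Z + X := by ring
    rw [e2, ← e3]
    exact h0
  have hd := discrim_le_zero key
  rw [discrim] at hd
  nlinarith

theorem jackson {B : MvPolynomial ι ℝ} {w₂ : ℝ} (hw : 0 < w₂) (hB : ∀ x, w₂ ≤ eval x B)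
    {K : ℝ} (hK : 0 ≤ K)
    (hgrad : ∀ x, ∑ j, (eval x (pderiv j B)) ^ 2 ≤ K ^ 2 * (eval x B) ^ 2)
    {D q L₀ : ℕ} (hD : 1 ≤ D) (hq : 2 ≤ q) (hDq : D ^ 4 ≤ 2 ^ q)
    (hL : 1 ≤ L₀) (hqD : 2 * q * D ^ 3 ≤ L₀ ^ 4) (hKL : 8 * q * K * (Real.pi / (2 * L₀)) ≤ 1)
    (hBD : (B ^ 2).totalDegree ≤ D) (l : MvPolynomial ι ℝ) (hl : l.totalDegree ≤ D) :
    ∃ F : MvPolynomial ι ℝ, F.totalDegree ≤ L₀ ^ 2 ∧
      wn B (l - B ^ 2 * F) ≤
        (2 * (Real.pi / (2 * L₀)) * Real.exp (K * (2 * (Real.pi / (2 * L₀)))) * (1000 * q)) ^ 2 *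
        ∫ x, (∑ j, (eval x B * eval x (pderiv j l) - 2 * eval x l * eval x (pderiv j B)) ^ 2) /
          (eval x B) ^ 4 ∂(gam ι) := by
  obtain ⟨n, c, t, f, ht, hf0, hfv, hfc, hsum⟩ := coef2_exists hD hq hDq hL hqD
  set h : ℝ := Real.pi / (2 * L₀) with hh
  have hL0 : (0 : ℝ) < L₀ := by exact_mod_cast hL
  have hh0 : 0 < h := by rw [hh]; positivity
  have hsumK := hsum K hK hKL
  have hBx : ∀ x : ι → ℝ, 0 < eval x B := fun x => hw.trans_le (hB x)
  set N₀ : ℕ := L₀ ^ 2 with hN₀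
  set F : MvPolynomial ι ℝ := ∑ k ∈ Finset.range (N₀ + 1), ∑ α ∈ lev ι k,
    C (f k * jbc B l α) * hp α with hF
  have hFdeg : F.totalDegree ≤ N₀ := by
    rw [hF]
    refine MvPolynomial.totalDegree_finsetSum_le fun k hk =>
      MvPolynomial.totalDegree_finsetSum_le fun α hα => ?_
    refine (MvPolynomial.totalDegree_mul _ _).trans ?_
    rw [totalDegree_C, zero_add]
    refine (hp_degree α).trans ?_
    rw [mem_lev.1 hα]
    have := Finset.mem_range.1 hk
    omega
  refine ⟨F, hFdeg, ?_⟩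
  set R : MvPolynomial ι ℝ := l - B ^ 2 * F with hR
  have hRdeg : R.totalDegree ≤ N₀ + D := by
    rw [hR]
    refine (MvPolynomial.totalDegree_sub _ _).trans (max_le (by omega) ?_)
    refine (MvPolynomial.totalDegree_mul _ _).trans ?_
    omega
  set N : ℕ := N₀ + D with hN
  -- step 1: the pairing
  have s1 : wn B R = ∫ x, eval x (l * R) / (eval x B) ^ 2 ∂(gam ι) -
      ∫ x, eval x R * eval x F ∂(gam ι) := by
    unfold wn
    rw [← integral_sub (div_integrable hw hB _ 2) (poly_integrable_mul R F)]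
    congr 1
    funext x
    have hb := (hBx x).ne'
    have e : eval x R = eval x l - (eval x B) ^ 2 * eval x F := by
      rw [hR]; simp
    rw [map_mul, e]
    field_simp
  have s2 : ∫ x, eval x R * eval x F ∂(gam ι) =
      ∑ k ∈ Finset.range (N₀ + 1), ∑ α ∈ lev ι k, f k * hc R α * jbc B l α := by
    have e : (fun x : ι → ℝ => eval x R * eval x F) =
        fun x => ∑ k ∈ Finset.range (N₀ + 1), ∑ α ∈ lev ι k,
          (f k * jbc B l α) * (eval x R * eval x (hp α)) := by
      funext x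
      rw [hF]
      simp only [map_mul, map_sum, eval_C, Finset.mul_sum]
      refine Finset.sum_congr rfl fun k _ => Finset.sum_congr rfl fun α _ => ?_
      ring
    rw [e, integral_finsetSum _ fun k _ => integrable_finsetSum _ fun α _ =>
      (poly_integrable_mul _ _).const_mul _]
    refine Finset.sum_congr rfl fun k _ => ?_
    rw [integral_finsetSum _ fun α _ => (poly_integrable_mul _ _).const_mul _]
    refine Finset.sum_congr rfl fun α _ => ?_
    rw [integral_const_mul]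
    unfold hc
    ring
  have s3 : ∑ k ∈ Finset.range (N₀ + 1), ∑ α ∈ lev ι k, f k * hc R α * jbc B l α =
      ∑ k ∈ Finset.range (N + 1), ∑ α ∈ lev ι k, f k * hc R α * jbc B l α := by
    refine Finset.sum_subset ?_ ?_
    · intro k hk
      rw [Finset.mem_range] at hk ⊢
      omega
    · intro k hk hk'
      rw [Finset.mem_range] at hk hk'
      refine Finset.sum_eq_zero fun α _ => ?_
      rw [hfv k (by omega) (by omega)]
      ring
  have s4 : ∫ x, eval x (l * R) / (eval x B) ^ 2 ∂(gam ι) =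
      ∑ k ∈ Finset.range (N + 1), ∑ α ∈ lev ι k, 1 * hc R α * jbc B l α := by
    rw [← jmu_pair hw hB l R N (fun _ => 1), mu_one hRdeg]
  set G : MvPolynomial ι ℝ := Mu N (Psi f) R with hG
  have s5 : wn B R = ∫ x, eval x (l * Mu N (fun k => 1 - f k) R) / (eval x B) ^ 2 ∂(gam ι) := by
    rw [jmu_pair hw hB, s1, s2, s3, s4, ← Finset.sum_sub_distrib]
    refine Finset.sum_congr rfl fun k _ => ?_
    rw [← Finset.sum_sub_distrib]
    refine Finset.sum_congr rfl fun α _ => ?_
    ring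
  have s6 : Mu N (fun k => 1 - f k) R = ∑ j, (X j * pderiv j G - pderiv j (pderiv j G)) := by
    rw [hG, mu_number (mu_degree N _ _), mu_comp]
    congr 1
    funext k
    unfold Psi
    rcases Nat.eq_zero_or_pos k with hk | hk
    · subst hk; simp [hf0]
    · have : (k : ℝ) ≠ 0 := by exact_mod_cast hk.ne'
      field_simp
  have s7 : wn B R = ∫ x, (∑ j, eval x (B * pderiv j l - 2 * l * pderiv j B) *
      eval x (pderiv j G)) / (eval x B) ^ 3 ∂(gam ι) := by
    rw [s5, s6]
    have e0 : (fun x : ι → ℝ => eval x (l * ∑ j, (X j * pderiv j G - pderiv j (pderiv j G))) /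
        (eval x B) ^ 2) = fun x => eval x l *
        eval x (∑ j, (X j * pderiv j G - pderiv j (pderiv j G))) / (eval x B) ^ 2 := by
      funext x; rw [map_mul]
    rw [e0, weight_form hw hB l G]
    have i1 : Integrable (fun x : ι → ℝ => (∑ j, eval x (pderiv j l) * eval x (pderiv j G)) /
        (eval x B) ^ 2) (gam ι) := by
      have := div_integrable hw hB (∑ j, pderiv j l * pderiv j G) 2
      simpa using this
    have i2 : Integrable (fun x : ι → ℝ => eval x l *
        (∑ j, eval x (pderiv j G) * eval x (pderiv j B)) / (eval x B) ^ 3) (gam ι) := by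
      have := div_integrable hw hB (l * ∑ j, pderiv j G * pderiv j B) 3
      simpa using this
    rw [← integral_const_mul, ← integral_sub i1 (i2.const_mul _)]
    congr 1
    funext x
    have hb := (hBx x).ne'
    have e1 : ∑ j, eval x (B * pderiv j l - 2 * l * pderiv j B) * eval x (pderiv j G) =
        eval x B * (∑ j, eval x (pderiv j l) * eval x (pderiv j G)) -
        2 * (eval x l * ∑ j, eval x (pderiv j G) * eval x (pderiv j B)) := by
      rw [Finset.mul_sum, Finset.mul_sum, Finset.mul_sum, ← Finset.sum_sub_distrib]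
      refine Finset.sum_congr rfl fun j _ => ?_
      simp only [map_mul, map_sub, map_ofNat]
      ring
    rw [e1]
    field_simp
  -- step 2: Cauchy-Schwarz
  have s8 := jcs hw hB (fun j => B * pderiv j l - 2 * l * pderiv j B) (fun j => pderiv j G)
  rw [← s7] at s8
  have eX : (fun x : ι → ℝ => (∑ j, (eval x (B * pderiv j l - 2 * l * pderiv j B)) ^ 2) /
      (eval x B) ^ 4) = fun x => (∑ j, (eval x B * eval x (pderiv j l) -
        2 * eval x l * eval x (pderiv j B)) ^ 2) / (eval x B) ^ 4 := by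
    funext x
    simp only [map_mul, map_sub, map_ofNat]
  rw [eX] at s8
  set Xx := ∫ x, (∑ j, (eval x B * eval x (pderiv j l) -
        2 * eval x l * eval x (pderiv j B)) ^ 2) / (eval x B) ^ 4 ∂(gam ι) with hXx
  -- step 3: the multiplier
  have s9 : ∫ x, (∑ j, (eval x (pderiv j G)) ^ 2) / (eval x B) ^ 2 ∂(gam ι) =
      ∑ j, wn B (pderiv j G) := by
    unfold wn
    rw [← integral_finsetSum _ fun j _ => wn_integrable hw hB _]
    congr 1
    funext x
    rw [Finset.sum_div]
  have s10 : G = Mu N (fun k => (1 - Real.cos ((2 * h) * √k)) / k)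
      (Mu N (fun k => ∑ i, c i * Real.cos (t i * √k)) R) := by
    rw [mu_comp, hG]
    congr 1
    funext k
    unfold Psi
    rw [hfc k]
    ring
  have s11 : ∑ j, wn B (pderiv j G) ≤
      (2 * h * Real.exp (K * (2 * h)) * (1000 * q)) ^ 2 * wn B R := by
    rw [s10]
    refine (wave_cos hw hB hK hgrad N _ (mu_degree N _ _) (by positivity)).trans ?_
    have h1 := wave_sum hw hB hK hgrad c t ht N R hRdeg
    have h2 : (∑ i, |c i| * Real.exp (K * t i)) ^ 2 ≤ (1000 * (q : ℝ)) ^ 2 := by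
      have h0 : 0 ≤ ∑ i, |c i| * Real.exp (K * t i) :=
        Finset.sum_nonneg fun i _ => mul_nonneg (abs_nonneg _) (Real.exp_pos _).le
      exact pow_le_pow_left₀ h0 hsumK 2
    have h3 := wn_nonneg B R
    have h4 : Real.exp (2 * K * (2 * h)) = Real.exp (K * (2 * h)) ^ 2 := by
      rw [← Real.exp_nat_mul]; congr 1; push_cast; ring
    rw [h4]
    calc (2 * h) ^ 2 * Real.exp (K * (2 * h)) ^ 2 *
          wn B (Mu N (fun k => ∑ i, c i * Real.cos (t i * √k)) R)
        ≤ (2 * h) ^ 2 * Real.exp (K * (2 * h)) ^ 2 * ((1000 * (q : ℝ)) ^ 2 * wn B R) := by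
          refine mul_le_mul_of_nonneg_left (h1.trans ?_) (by positivity)
          exact mul_le_mul_of_nonneg_right h2 h3
      _ = _ := by ring
  rw [s9] at s8
  set Θ : ℝ := (2 * h * Real.exp (K * (2 * h)) * (1000 * q)) ^ 2 with hΘ
  have hX0 : 0 ≤ Xx := integral_nonneg fun x =>
    div_nonneg (Finset.sum_nonneg fun j _ => sq_nonneg _) (by have := hBx x; positivity)
  have hW0 : 0 ≤ wn B R := wn_nonneg B R
  have hΘ0 : 0 ≤ Θ := sq_nonneg _
  have s12 : (wn B R) ^ 2 ≤ Xx * (Θ * wn B R) :=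
    s8.trans (mul_le_mul_of_nonneg_left s11 hX0)
  rcases hW0.eq_or_lt with h0 | hpos
  · rw [← h0]; positivity
  · have : wn B R * wn B R ≤ (Θ * Xx) * wn B R := by nlinarith
    exact le_of_mul_le_mul_right this hpos

end Pool.Agent.KWG
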