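import Pool.Agent.Lib.MP_68391b_lc.Jk.JAc

/-! The pointwise bound. -/

set_option linter.unusedSectionVars false

namespace Pool.Agent.KWG

open MeasureTheory ProbabilityTheory MvPolynomial Pool.Agent.KWI

private theorem jpoint_alg {a V v S ρ G H X : ℝ} (hV : 0 ≤ V) (hρ : 0 < ρ)
    (hSe : S = a ^ 2 + V + v ^ 2) (hS0 : 0 < S) (hG0 : 0 ≤ G) (hH0 : 0 ≤ H)
    (hg : G ≤ (1 / ρ ^ 2) * V) (hS : H ≤ (4 / ρ ^ 2) * (a ^ 2 + V) * V)
    (hX : X ≤ S ^ 2 * (2 * S ^ 2 * (v - 2 * a) ^ 2 * G + 32 * (a * (v - a)) ^ 2 * H)) :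
    X / S ^ 8 ≤ (266 / ρ ^ 2) * (V / S ^ 3) := by
  have hA0 : 0 ≤ a ^ 2 + V := by positivity
  have hAS : a ^ 2 + V ≤ S := by rw [hSe]; nlinarith [sq_nonneg v]
  have h1 : (v - 2 * a) ^ 2 ≤ 5 * S := by
    rw [hSe]; nlinarith [sq_nonneg (2 * v + a)]
  have h2 : (a * (v - a)) ^ 2 ≤ 2 * (a ^ 2 + V) * S := by
    have h3 : (v - a) ^ 2 ≤ 2 * S := by rw [hSe]; nlinarith [sq_nonneg (v + a)]
    calc (a * (v - a)) ^ 2 = a ^ 2 * (v - a) ^ 2 := by ring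
      _ ≤ (a ^ 2 + V) * (2 * S) :=
          mul_le_mul (by linarith) h3 (sq_nonneg _) hA0
      _ = 2 * (a ^ 2 + V) * S := by ring
  have h3 : 2 * S ^ 2 * (v - 2 * a) ^ 2 * G ≤ 10 * S ^ 3 * (1 / ρ ^ 2 * V) := by
    calc 2 * S ^ 2 * (v - 2 * a) ^ 2 * G ≤ 2 * S ^ 2 * (5 * S) * (1 / ρ ^ 2 * V) :=
          mul_le_mul (mul_le_mul_of_nonneg_left h1 (by positivity)) hg hG0 (by positivity)
      _ = _ := by ring
  have h4 : 32 * (a * (v - a)) ^ 2 * H ≤ 256 * S ^ 3 * (1 / ρ ^ 2 * V) := by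
    have h5 : (a ^ 2 + V) * (a ^ 2 + V) ≤ S * S := mul_self_le_mul_self hA0 hAS
    have h6 : 0 ≤ S * (1 / ρ ^ 2 * V) := by positivity
    calc 32 * (a * (v - a)) ^ 2 * H ≤ 32 * (2 * (a ^ 2 + V) * S) *
          ((4 / ρ ^ 2) * (a ^ 2 + V) * V) :=
          mul_le_mul (mul_le_mul_of_nonneg_left h2 (by norm_num)) hS hH0 (by positivity)
      _ = 256 * (((a ^ 2 + V) * (a ^ 2 + V)) * (S * (1 / ρ ^ 2 * V))) := by ring
      _ ≤ 256 * ((S * S) * (S * (1 / ρ ^ 2 * V))) :=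
          mul_le_mul_of_nonneg_left (mul_le_mul_of_nonneg_right h5 h6) (by norm_num)
      _ = _ := by ring
  have h5 : X ≤ 266 * S ^ 5 * (1 / ρ ^ 2 * V) := by
    refine hX.trans ?_
    calc S ^ 2 * (2 * S ^ 2 * (v - 2 * a) ^ 2 * G + 32 * (a * (v - a)) ^ 2 * H) ≤
        S ^ 2 * (10 * S ^ 3 * (1 / ρ ^ 2 * V) + 256 * S ^ 3 * (1 / ρ ^ 2 * V)) :=
          mul_le_mul_of_nonneg_left (add_le_add h3 h4) (by positivity)
      _ = _ := by ring
  rw [div_le_iff₀ (by positivity)]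
  refine h5.trans (le_of_eq ?_)
  field_simp

private theorem jpoint_alg2 (S v a g s : ℝ) :
    (S ^ 2 * (g * (v - 2 * a)) - 2 * (a * (v - a)) * (2 * S * s)) ^ 2 ≤
      S ^ 2 * (2 * S ^ 2 * (v - 2 * a) ^ 2 * g ^ 2 + 32 * (a * (v - a)) ^ 2 * s ^ 2) := by
  have e5 : (S ^ 2 * (g * (v - 2 * a)) - 2 * (a * (v - a)) * (2 * S * s)) ^ 2 =
      S ^ 2 * (S * (v - 2 * a) * g - 4 * (a * (v - a)) * s) ^ 2 := by ring
  rw [e5]
  apply mul_le_mul_of_nonneg_left _ (by positivity)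
  nlinarith [sq_nonneg (S * (v - 2 * a) * g + 4 * (a * (v - a)) * s)]

variable {ι : Type} [Fintype ι] [DecidableEq ι]

theorem jpoint_bound {d : ℕ} {ρ : ℝ} (hρ : 0 < ρ) {v : ℝ} (hv : 0 < v) (p : MvPolynomial ι ℝ)
    (hp : p.totalDegree ≤ d) (x : ι → ℝ) :
    (∑ j, (eval x (AP d ρ v p ^ 2) * eval x (pderiv j (p * (C v - p))) -
        2 * eval x (p * (C v - p)) * eval x (pderiv j (AP d ρ v p ^ 2))) ^ 2) /
        (eval x (AP d ρ v p ^ 2)) ^ 4 ≤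
      (266 / ρ ^ 2) * (eval x (VP d ρ p) / (eval x (AP d ρ v p)) ^ 3) := by
  have hV := vp_nonneg d ρ p x
  have hSe : eval x (AP d ρ v p) = (eval x p) ^ 2 + eval x (VP d ρ p) + v ^ 2 := by
    simp [AP]
  have hS0 : 0 < eval x (AP d ρ v p) := by
    rw [hSe]
    have := sq_nonneg (eval x p)
    positivity
  have hterm : ∀ j, (eval x (AP d ρ v p ^ 2) * eval x (pderiv j (p * (C v - p))) -
        2 * eval x (p * (C v - p)) * eval x (pderiv j (AP d ρ v p ^ 2))) ^ 2 ≤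
      eval x (AP d ρ v p) ^ 2 * (2 * eval x (AP d ρ v p) ^ 2 * (v - 2 * eval x p) ^ 2 *
        (eval x (pderiv j p)) ^ 2 +
        32 * (eval x p * (v - eval x p)) ^ 2 * (eval x (pderiv j (AP d ρ v p))) ^ 2) := by
    intro j
    have e1 : eval x (pderiv j (p * (C v - p))) = eval x (pderiv j p) * (v - 2 * eval x p) := by
      rw [Derivation.leibniz, map_sub, pderiv_C]
      simp only [smul_eq_mul, map_add, map_mul, map_sub, eval_C, map_zero]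
      ring
    have e2 : eval x (pderiv j (AP d ρ v p ^ 2)) =
        2 * eval x (AP d ρ v p) * eval x (pderiv j (AP d ρ v p)) := by
      rw [pow_two, Derivation.leibniz]
      simp only [smul_eq_mul, map_add, map_mul]
      ring
    have e3 : eval x (p * (C v - p)) = eval x p * (v - eval x p) := by
      simp
    have e4 : eval x (AP d ρ v p ^ 2) = eval x (AP d ρ v p) ^ 2 := by rw [map_pow]
    rw [e1, e2, e3, e4]
    exact jpoint_alg2 _ _ _ _ _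
  have e6 : (eval x (AP d ρ v p ^ 2)) ^ 4 = eval x (AP d ρ v p) ^ 8 := by
    rw [map_pow, ← pow_mul]
  rw [e6]
  refine jpoint_alg (a := eval x p) (v := v) (G := ∑ j, (eval x (pderiv j p)) ^ 2)
    (H := ∑ j, (eval x (pderiv j (AP d ρ v p))) ^ 2) hV hρ hSe hS0
    (Finset.sum_nonneg fun j _ => sq_nonneg _) (Finset.sum_nonneg fun j _ => sq_nonneg _)
    (p_grad hρ p hp x) (ap_grad hρ v p hp x) ?_
  refine (Finset.sum_le_sum fun j _ => hterm j).trans (le_of_eq ?_)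
  rw [Finset.mul_sum, Finset.mul_sum, ← Finset.sum_add_distrib, Finset.mul_sum]

end Pool.Agent.KWG
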