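import Pool.Agent.Lib.MP_68391b_lc.Jk.JJack
import Pool.Agent.Lib.MP_68391b_lc.Jk.JPoint
import Pool.Agent.Lib.MP_68391b_lc.Jk.JFub
import Pool.Agent.Lib.MP_68391b_lc.Gen.GFinal

/-! The certificate and the one-sided bound. -/

set_option linter.unusedSectionVars false

namespace Pool.Agent.KWG

open MeasureTheory ProbabilityTheory MvPolynomial Pool.Agent.KWI

section Aux3

variable {ι : Type} [Fintype ι] [DecidableEq ι]

theorem bgrad {d : ℕ} {ρ : ℝ} (hρ : 0 < ρ) (v : ℝ) (p : MvPolynomial ι ℝ)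
    (hp : p.totalDegree ≤ d) (x : ι → ℝ) :
    ∑ j, (eval x (pderiv j (AP d ρ v p ^ 2))) ^ 2 ≤
      (4 / ρ) ^ 2 * (eval x (AP d ρ v p ^ 2)) ^ 2 := by
  have h1 := ap_grad hρ v p hp x
  set S := eval x (AP d ρ v p) with hS
  have hV := vp_nonneg d ρ p x
  have hSe : S = (eval x p) ^ 2 + eval x (VP d ρ p) + v ^ 2 := by
    rw [hS]; simp only [AP, map_add, map_pow, eval_C]
  have e : ∀ j, eval x (pderiv j (AP d ρ v p ^ 2)) =
      2 * S * eval x (pderiv j (AP d ρ v p)) := by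
    intro j
    rw [Derivation.leibniz_pow]
    simp [hS]
    ring
  simp only [e, mul_pow, ← Finset.mul_sum, map_pow, ← hS]
  have hp0 := sq_nonneg (eval x p)
  have hv0 := sq_nonneg v
  have hS0 : 0 ≤ S := by rw [hSe]; positivity
  have h2 : ((eval x p) ^ 2 + eval x (VP d ρ p)) * eval x (VP d ρ p) ≤ S * S := by
    apply mul_le_mul
    · rw [hSe]; linarith
    · rw [hSe]; linarith
    · exact hV
    · exact hS0
  calc 2 ^ 2 * S ^ 2 * ∑ j, (eval x (pderiv j (AP d ρ v p))) ^ 2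
      ≤ 2 ^ 2 * S ^ 2 * ((4 / ρ ^ 2) * ((eval x p) ^ 2 + eval x (VP d ρ p)) *
        eval x (VP d ρ p)) := by gcongr
    _ = (16 / ρ ^ 2) * S ^ 2 * (((eval x p) ^ 2 + eval x (VP d ρ p)) *
        eval x (VP d ρ p)) := by ring
    _ ≤ (16 / ρ ^ 2) * S ^ 2 * (S * S) := by gcongr
    _ = (4 / ρ) ^ 2 * (S ^ 2) ^ 2 := by rw [div_pow]; ring

theorem ap2_ge (d : ℕ) (ρ v : ℝ) (p : MvPolynomial ι ℝ) (x : ι → ℝ) :
    v ^ 4 ≤ eval x (AP d ρ v p ^ 2) := by
  have h := ap_ge d ρ v p x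
  rw [map_pow]
  calc v ^ 4 = (v ^ 2) ^ 2 := by ring
    _ ≤ _ := pow_le_pow_left₀ (sq_nonneg v) h 2

/-- Division by the fourth power is integrable for every measure with matching moments. -/
theorem mm_div_integrable {N : ℕ} {μ : Measure (ι → ℝ)} (hμ : MM N μ)
    {B : MvPolynomial ι ℝ} {w₂ : ℝ} (hw : 0 < w₂) (hB : ∀ x, w₂ ≤ eval x B)
    (q : MvPolynomial ι ℝ) (hq : q.totalDegree ≤ N) (m : ℕ) :
    Integrable (fun x : ι → ℝ => eval x q / (eval x B) ^ m) μ := by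
  have h1 : Integrable (fun x : ι → ℝ => |eval x q| * (1 / w₂ ^ m)) μ :=
    (hμ q hq).1.abs.mul_const _
  refine h1.mono ?_ (Filter.Eventually.of_forall fun x => ?_)
  · have h2 := eval_measurable q
    have h3 := eval_measurable B
    exact (by fun_prop : Measurable fun x : ι → ℝ =>
      eval x q / (eval x B) ^ m).aestronglyMeasurable
  · have hBx : 0 < eval x B := lt_of_lt_of_le hw (hB x)
    rw [Real.norm_eq_abs, Real.norm_eq_abs, abs_div, abs_mul, abs_abs,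
      abs_of_pos (show 0 < (eval x B) ^ m by positivity),
      abs_of_pos (show (0 : ℝ) < 1 / w₂ ^ m by positivity), div_eq_mul_one_div]
    gcongr
    exact hB x

theorem cert {d : ℕ} (hd : 1 ≤ d) {ρ : ℝ} (hρ : 0 < ρ) {v : ℝ} (hv : 0 < v)
    (p : MvPolynomial ι ℝ) (hp : p.totalDegree ≤ d) {q L₀ N : ℕ} (hq : 2 ≤ q)
    (hDq : (8 * d) ^ 4 ≤ 2 ^ q) (hL : 1 ≤ L₀) (hqD : 2 * q * (8 * d) ^ 3 ≤ L₀ ^ 4)
    (hKL : 8 * q * (4 / ρ) * (Real.pi / (2 * L₀)) ≤ 1)
    (hΘ : 2 * (Real.pi / (2 * L₀)) * Real.exp (4 / ρ * (2 * (Real.pi / (2 * L₀)))) *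
      (1000 * q) ≤ ρ)
    (hN : 2 * L₀ ^ 2 + 8 * d ≤ N) (μ : Measure (ι → ℝ)) [IsProbabilityMeasure μ]
    (hμ : MM N μ) :
    ∫ x, (eval x (p * (C v - p))) ^ 2 / (eval x (AP d ρ v p)) ^ 4 ∂(gam ι) -
      266 * ∫ x, eval x (VP d ρ p) / (eval x (AP d ρ v p)) ^ 3 ∂(gam ι) ≤
      ∫ x, (eval x (p * (C v - p))) ^ 2 / (eval x (AP d ρ v p)) ^ 4 ∂μ := by
  set A := AP d ρ v p with hA
  set B := A ^ 2 with hBdef
  set l := p * (C v - p) with hl
  have hw : (0 : ℝ) < v ^ 4 := by positivity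
  have hB : ∀ x, v ^ 4 ≤ eval x B := fun x => ap2_ge d ρ v p x
  have hBx : ∀ x : ι → ℝ, 0 < eval x B := fun x => hw.trans_le (hB x)
  have hAx : ∀ x : ι → ℝ, v ^ 2 ≤ eval x A := fun x => ap_ge d ρ v p x
  have hldeg : l.totalDegree ≤ 2 * d := by
    rw [hl]
    refine (MvPolynomial.totalDegree_mul _ _).trans ?_
    have : (C v - p).totalDegree ≤ d := by
      refine (MvPolynomial.totalDegree_sub _ _).trans (max_le ?_ hp)
      rw [totalDegree_C]; exact Nat.zero_le _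
    omega
  have hAdeg : A.totalDegree ≤ 2 * d := ap_degree d ρ v p hp
  have hB2deg : (B ^ 2).totalDegree ≤ 8 * d := by
    rw [hBdef, ← pow_mul]
    refine (MvPolynomial.totalDegree_pow _ _).trans ?_
    omega
  obtain ⟨F, hF, hFw⟩ := jackson (ι := ι) (D := 8 * d) hw hB (K := 4 / ρ) (by positivity)
    (fun x => bgrad hρ v p hp x) (by omega) hq hDq hL hqD hKL hB2deg l (by omega)
  set Θ : ℝ := 2 * (Real.pi / (2 * L₀)) * Real.exp (4 / ρ * (2 * (Real.pi / (2 * L₀)))) *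
      (1000 * q) with hΘd
  have hΘ0 : 0 ≤ Θ := by rw [hΘd]; positivity
  -- the error
  have herr : wn B (l - B ^ 2 * F) ≤
      266 * ∫ x, eval x (VP d ρ p) / (eval x A) ^ 3 ∂(gam ι) := by
    have i1 : Integrable (fun x : ι → ℝ => eval x (VP d ρ p) / (eval x A) ^ 3) (gam ι) :=
      div_integrable (show (0 : ℝ) < v ^ 2 by positivity) hAx _ 3
    have h1 : ∫ x, (∑ j, (eval x B * eval x (pderiv j l) -
        2 * eval x l * eval x (pderiv j B)) ^ 2) / (eval x B) ^ 4 ∂(gam ι) ≤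
        ∫ x, (266 / ρ ^ 2) * (eval x (VP d ρ p) / (eval x A) ^ 3) ∂(gam ι) := by
      apply integral_mono_of_nonneg
      · exact Filter.Eventually.of_forall fun x =>
          div_nonneg (Finset.sum_nonneg fun j _ => sq_nonneg _) (by have := hBx x; positivity)
      · exact i1.const_mul _
      · exact Filter.Eventually.of_forall fun x => jpoint_bound hρ hv p hp x
    rw [integral_const_mul] at h1
    have hI : 0 ≤ ∫ x, eval x (VP d ρ p) / (eval x A) ^ 3 ∂(gam ι) :=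
      integral_nonneg fun x => div_nonneg (vp_nonneg d ρ p x)
        (pow_nonneg ((sq_nonneg v).trans (hAx x)) 3)
    set I := ∫ x, eval x (VP d ρ p) / (eval x A) ^ 3 ∂(gam ι)
    calc wn B (l - B ^ 2 * F) ≤ Θ ^ 2 * _ := hFw
      _ ≤ Θ ^ 2 * ((266 / ρ ^ 2) * I) := by gcongr
      _ ≤ ρ ^ 2 * ((266 / ρ ^ 2) * I) := by gcongr
      _ = 266 * I := by field_simp
  -- the identity for gamma
  set G : MvPolynomial ι ℝ := C 2 * (l * F) - B ^ 2 * F ^ 2 with hG
  have hGdeg : G.totalDegree ≤ N := by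
    rw [hG]
    refine (MvPolynomial.totalDegree_sub _ _).trans (max_le ?_ ?_)
    · refine (MvPolynomial.totalDegree_mul _ _).trans ?_
      rw [totalDegree_C, zero_add]
      refine (MvPolynomial.totalDegree_mul _ _).trans ?_
      omega
    · refine (MvPolynomial.totalDegree_mul _ _).trans ?_
      have := MvPolynomial.totalDegree_pow F 2
      omega
  have e4 : ∀ x : ι → ℝ, (eval x l) ^ 2 / (eval x A) ^ 4 =
      (eval x l) ^ 2 / (eval x B) ^ 2 := by
    intro x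
    rw [hBdef, map_pow, ← pow_mul]
  simp only [e4]
  have hγ : ∫ x, (eval x l) ^ 2 / (eval x B) ^ 2 ∂(gam ι) - wn B (l - B ^ 2 * F) =
      ∫ x, eval x G ∂(gam ι) := by
    unfold wn
    rw [← integral_sub (wn_integrable hw hB l) (wn_integrable hw hB _)]
    congr 1
    funext x
    have hb := (hBx x).ne'
    simp only [hG, map_sub, map_mul, map_pow, eval_C]
    field_simp
    ring
  have hμG : ∫ x, eval x G ∂μ ≤ ∫ x, (eval x l) ^ 2 / (eval x B) ^ 2 ∂μ := by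
    have i2 : Integrable (fun x : ι → ℝ => (eval x l) ^ 2 / (eval x B) ^ 2) μ := by
      have hl2 : (l ^ 2).totalDegree ≤ N := by
        refine (MvPolynomial.totalDegree_pow _ _).trans ?_
        omega
      have := mm_div_integrable hμ hw hB (l ^ 2) hl2 2
      simpa using this
    refine integral_mono (hμ G hGdeg).1 i2 fun x => ?_
    show eval x G ≤ (eval x l) ^ 2 / (eval x B) ^ 2
    have hb := hBx x
    have e5 : (eval x l) ^ 2 / (eval x B) ^ 2 - eval x G =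
        (eval x l / eval x B - eval x B * eval x F) ^ 2 := by
      simp only [hG, map_sub, map_mul, map_pow, eval_C]
      field_simp
      ring
    have := sq_nonneg (eval x l / eval x B - eval x B * eval x F)
    linarith
  have h9 := (hμ G hGdeg).2
  linarith

theorem omega_bounds {a V : ℝ} (hV : 0 ≤ V) :
    -1 ≤ a / √(a ^ 2 + V) ∧ a / √(a ^ 2 + V) ≤ 1 := by
  have h1 : |a| ≤ √(a ^ 2 + V) := Real.abs_le_sqrt (by linarith)
  have h2 : 0 ≤ √(a ^ 2 + V) := Real.sqrt_nonneg _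
  have h3 := abs_le.1 h1
  rcases h2.eq_or_lt with h0 | hpos
  · rw [← h0, div_zero]; norm_num
  · constructor
    · rw [le_div_iff₀ hpos]; linarith [h3.1]
    · rw [div_le_iff₀ hpos]; linarith [h3.2]

theorem omega_pos_iff {a V : ℝ} (hV : 0 ≤ V) : 0 ≤ a / √(a ^ 2 + V) ↔ 0 ≤ a := by
  have h2 : 0 ≤ √(a ^ 2 + V) := Real.sqrt_nonneg _
  have h1 : |a| ≤ √(a ^ 2 + V) := Real.abs_le_sqrt (by linarith)
  rcases h2.eq_or_lt with h0 | hpos
  · rw [← h0, div_zero]
    rw [← h0] at h1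
    have := abs_nonpos_iff.1 h1
    simp [this]
  · constructor
    · intro h
      by_contra hne
      have : a / √(a ^ 2 + V) < 0 := div_neg_of_neg_of_pos (not_le.1 hne) hpos
      linarith
    · intro h
      positivity

theorem gi_abs {ω : ℝ} (h1 : -1 ≤ ω) (h2 : ω ≤ 1) : |GI ω| ≤ 1 := by
  have h3 : |ω| ≤ 1 := abs_le.2 ⟨h1, h2⟩
  have hπ := Real.pi_pos
  have hπ4 := Real.pi_le_four
  have e2 : ω ^ 2 ≤ 1 := by nlinarith
  have e20 : 0 ≤ ω ^ 2 := sq_nonneg _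
  have e4 : ω ^ 4 ≤ 1 := by nlinarith
  have e40 : 0 ≤ ω ^ 4 := by positivity
  have e3 : |ω ^ 3| ≤ 1 := by
    rw [abs_pow]; exact pow_le_one₀ (abs_nonneg _) h3
  have e3' := abs_le.1 e3
  unfold GI
  rw [abs_le]
  constructor <;> nlinarith [e3'.1, e3'.2]

theorem gi_measurable : Measurable GI := by
  unfold GI
  fun_prop

theorem one_sided3 {d Q : ℕ} (hd : 1 ≤ d) (p : MvPolynomial ι ℝ) (hp : p.totalDegree ≤ d)
    (hnull : (gam ι).real {x | eval x p = 0} = 0) {N : ℕ}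
    (hN : 2 ^ 82 * d ^ 2 * (Nat.log 2 d + 2) ^ 2 * 4 ^ Q ≤ N)
    (μ : Measure (ι → ℝ)) [IsProbabilityMeasure μ] (hμ : MM N μ) :
    μ.real {x | 0 ≤ eval x p} ≤ (gam ι).real {x | 0 ≤ eval x p} + (1 / 2) ^ Q := by
  obtain ⟨R, hR⟩ : ∃ R : ℕ, R = 2 ^ (25 + Q) * d := ⟨_, rfl⟩
  obtain ⟨q, hq⟩ : ∃ q : ℕ, q = 4 * Nat.log 2 d + 16 := ⟨_, rfl⟩
  obtain ⟨L₀, hL₀⟩ : ∃ L₀ : ℕ, L₀ = 2 ^ 12 * q * R := ⟨_, rfl⟩
  obtain ⟨ρ, hρd⟩ : ∃ ρ : ℝ, ρ = 1 / R := ⟨_, rfl⟩
  have hR1 : 1 ≤ R := by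
    rw [hR]; exact Nat.one_le_iff_ne_zero.2 (by positivity)
  have hR0 : (0 : ℝ) < R := by exact_mod_cast hR1
  have hρ : 0 < ρ := by rw [hρd]; positivity
  have hq2 : 2 ≤ q := by omega
  have hq0 : (0 : ℝ) < q := by exact_mod_cast (by omega : 0 < q)
  have hL1 : 1 ≤ L₀ := by
    rw [hL₀]
    exact Nat.one_le_iff_ne_zero.2 (mul_ne_zero (mul_ne_zero (by norm_num) (by omega)) (by omega))
  have hL0 : (0 : ℝ) < L₀ := by exact_mod_cast hL1
  have hL0e : (L₀ : ℝ) = 4096 * q * R := by rw [hL₀]; push_cast; norm_num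
  have hπ := Real.pi_pos
  have hπu := Real.pi_lt_d2
  -- numerical conditions
  have hDq : (8 * d) ^ 4 ≤ 2 ^ q := by
    have h1 : d < 2 ^ (Nat.log 2 d + 1) := Nat.lt_pow_succ_log_self (by norm_num) d
    calc (8 * d) ^ 4 ≤ (8 * 2 ^ (Nat.log 2 d + 1)) ^ 4 := by gcongr
      _ = 2 ^ 12 * (2 ^ (Nat.log 2 d + 1)) ^ 4 := by rw [mul_pow]; norm_num
      _ = 2 ^ q := by
        rw [hq, ← pow_mul, ← pow_add]
        congr 1
        ring
  have hdR : d ≤ R := by
    rw [hR]; exact Nat.le_mul_of_pos_left _ (by positivity)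
  have hqD : 2 * q * (8 * d) ^ 3 ≤ L₀ ^ 4 := by
    calc 2 * q * (8 * d) ^ 3 = 1024 * q ^ 1 * d ^ 3 * 1 := by ring
      _ ≤ (2 ^ 12) ^ 4 * q ^ 4 * R ^ 3 * R := by
          gcongr <;> first | omega | norm_num
      _ = L₀ ^ 4 := by rw [hL₀]; ring
  have hKL : 8 * q * (4 / ρ) * (Real.pi / (2 * L₀)) ≤ 1 := by
    have e : 8 * q * (4 / ρ) * (Real.pi / (2 * L₀)) = Real.pi / 256 := by
      rw [hL0e, hρd]; field_simp; norm_num
    rw [e]; linarith
  have hΘ : 2 * (Real.pi / (2 * L₀)) * Real.exp (4 / ρ * (2 * (Real.pi / (2 * L₀)))) *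
      (1000 * q) ≤ ρ := by
    have e1 : 4 / ρ * (2 * (Real.pi / (2 * L₀))) = Real.pi / (1024 * q) := by
      rw [hL0e, hρd]; field_simp; norm_num
    have hsm : Real.pi / (1024 * q) ≤ 1 / 100 := by
      rw [div_le_iff₀ (by positivity)]
      have : (2 : ℝ) ≤ q := by exact_mod_cast hq2
      nlinarith
    have h2 : Real.exp (Real.pi / (1024 * q)) ≤ 1.1 := by
      refine (Real.exp_le_exp.2 hsm).trans ?_
      have h3 := Real.exp_bound_div_one_sub_of_interval (x := 1 / 100) (by norm_num) (by norm_num)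
      refine h3.trans ?_
      norm_num
    rw [e1]
    have e2 : 2 * (Real.pi / (2 * L₀)) = Real.pi / 4096 / q * ρ := by
      rw [hL0e, hρd]; field_simp
    rw [e2]
    calc Real.pi / 4096 / q * ρ * Real.exp (Real.pi / (1024 * q)) * (1000 * q)
        ≤ Real.pi / 4096 / q * ρ * 1.1 * (1000 * q) := by gcongr
      _ = (Real.pi * 1100 / 4096) * ρ := by field_simp; norm_num
      _ ≤ 1 * ρ := by
          apply mul_le_mul_of_nonneg_right _ hρ.le
          linarith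
      _ = ρ := one_mul _
  have hN' : 2 * L₀ ^ 2 + 8 * d ≤ N := by
    refine le_trans ?_ hN
    have h1 : q ≤ 8 * (Nat.log 2 d + 2) := by omega
    have h4 : 1 ≤ 4 ^ Q := Nat.one_le_pow _ _ (by norm_num)
    have h2 : L₀ ^ 2 ≤ 2 ^ 80 * d ^ 2 * (Nat.log 2 d + 2) ^ 2 * 4 ^ Q := by
      calc L₀ ^ 2 = 2 ^ 24 * q ^ 2 * R ^ 2 := by rw [hL₀]; ring
        _ ≤ 2 ^ 24 * (8 * (Nat.log 2 d + 2)) ^ 2 * R ^ 2 := by gcongr
        _ = 2 ^ 80 * d ^ 2 * (Nat.log 2 d + 2) ^ 2 * 4 ^ Q := by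
            have e : (2 ^ (25 + Q)) ^ 2 = 2 ^ 50 * 4 ^ Q := by
              rw [← pow_mul, show (25 + Q) * 2 = 50 + 2 * Q by ring, pow_add, pow_mul 2 2 Q]
              norm_num
            rw [hR, mul_pow (2 ^ (25 + Q)) d 2, e]
            ring
    have h3 : 8 * d ≤ 2 ^ 80 * d ^ 2 * (Nat.log 2 d + 2) ^ 2 * 4 ^ Q := by
      calc 8 * d = 8 * d ^ 1 * 1 ^ 2 * 1 := by ring
        _ ≤ _ := by gcongr <;> first | omega | norm_num
    calc 2 * L₀ ^ 2 + 8 * d ≤ 2 * (2 ^ 80 * d ^ 2 * (Nat.log 2 d + 2) ^ 2 * 4 ^ Q) +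
          2 ^ 80 * d ^ 2 * (Nat.log 2 d + 2) ^ 2 * 4 ^ Q := by gcongr
      _ ≤ 2 ^ 82 * d ^ 2 * (Nat.log 2 d + 2) ^ 2 * 4 ^ Q := by
          have : 2 ^ 82 * d ^ 2 * (Nat.log 2 d + 2) ^ 2 * 4 ^ Q =
            4 * (2 ^ 80 * d ^ 2 * (Nat.log 2 d + 2) ^ 2 * 4 ^ Q) := by ring
          omega
  -- integration over the scales
  have hcert := fun (v : ℝ) (hv : 0 < v) =>
    cert hd hρ hv p hp hq2 hDq hL1 hqD hKL hΘ hN' μ hμ
  obtain ⟨iμ, eμ⟩ := fub_main μ d ρ p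
  obtain ⟨iγ, eγ⟩ := fub_main (gam ι) d ρ p
  obtain ⟨iE, eE⟩ := fub_err d ρ p
  set a := ∫ x, eval x (VP d ρ p) / ((eval x p) ^ 2 + eval x (VP d ρ p)) ∂(gam ι) with ha
  set Ω : (ι → ℝ) → ℝ := fun x => eval x p / √((eval x p) ^ 2 + eval x (VP d ρ p)) with hΩ
  have hmain : ∫ x, GI (Ω x) ∂(gam ι) - 266 * ((1 / 4) * a) ≤ ∫ x, GI (Ω x) ∂μ := by
    rw [← eμ, ← eγ, ← eE, ← integral_const_mul, ← integral_sub iγ (iE.const_mul _)]
    refine setIntegral_mono_on (iγ.sub (iE.const_mul _)) iμ measurableSet_Ioi fun v hv => ?_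
    have hv' : 0 < v := hv
    have h1 := hcert v hv'
    have h2 : (0 : ℝ) ≤ v ^ 3 := by positivity
    have h3 := mul_le_mul_of_nonneg_left h1 h2
    rw [mul_sub] at h3
    calc _ = v ^ 3 * ∫ x, (eval x (p * (C v - p))) ^ 2 / (eval x (AP d ρ v p)) ^ 4 ∂(gam ι) -
          v ^ 3 * (266 * ∫ x, eval x (VP d ρ p) / (eval x (AP d ρ v p)) ^ 3 ∂(gam ι)) := by
            ring
      _ ≤ _ := h3
  -- conversion to probabilities
  have hV0 : ∀ x : ι → ℝ, 0 ≤ eval x (VP d ρ p) := fun x => vp_nonneg d ρ p x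
  have hΩm : Measurable Ω := by
    have h1 := eval_measurable p
    have h2 := eval_measurable (VP d ρ p)
    simp only [hΩ]; fun_prop
  have hGm : Measurable fun x => GI (Ω x) := gi_measurable.comp hΩm
  have hΩb : ∀ x, -1 ≤ Ω x ∧ Ω x ≤ 1 := fun x => omega_bounds (hV0 x)
  have hGi : ∀ (ν : Measure (ι → ℝ)) [IsProbabilityMeasure ν],
      Integrable (fun x => GI (Ω x)) ν := by
    intro ν _
    refine Integrable.of_bound (C := 1) hGm.aestronglyMeasurable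
      (Filter.Eventually.of_forall fun x => ?_)
    rw [Real.norm_eq_abs]
    exact gi_abs (hΩb x).1 (hΩb x).2
  have hSm : MeasurableSet {x : ι → ℝ | 0 ≤ eval x p} :=
    measurableSet_le measurable_const (eval_measurable p)
  have hind : ∀ x, (if 0 ≤ Ω x then (1 : ℝ) else 0) =
      {x : ι → ℝ | 0 ≤ eval x p}.indicator (fun _ => (1 : ℝ)) x := by
    intro x
    have h1 : 0 ≤ Ω x ↔ 0 ≤ eval x p := omega_pos_iff (hV0 x)
    by_cases h : 0 ≤ eval x p
    · rw [if_pos (h1.2 h), Set.indicator_of_mem (show x ∈ {x : ι → ℝ | 0 ≤ eval x p} from h)]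
    · rw [if_neg (fun h2 => h (h1.1 h2)),
        Set.indicator_of_notMem (show x ∉ {x : ι → ℝ | 0 ≤ eval x p} from h)]
  have hIi : ∀ (ν : Measure (ι → ℝ)) [IsProbabilityMeasure ν],
      Integrable ({x : ι → ℝ | 0 ≤ eval x p}.indicator (fun _ => (1 : ℝ))) ν := by
    intro ν _
    exact (integrable_const (1 : ℝ)).indicator hSm
  have hIe : ∀ (ν : Measure (ι → ℝ)) [IsProbabilityMeasure ν],
      ∫ x, {x : ι → ℝ | 0 ≤ eval x p}.indicator (fun _ => (1 : ℝ)) x ∂ν =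
        ν.real {x | 0 ≤ eval x p} := by
    intro ν _
    exact integral_indicator_one hSm
  have hupper : μ.real {x | 0 ≤ eval x p} ≤
      (1 / 2 + 2 / Real.pi) - (8 / Real.pi) * ∫ x, GI (Ω x) ∂μ := by
    rw [← hIe μ]
    have e : (1 / 2 + 2 / Real.pi) - (8 / Real.pi) * ∫ x, GI (Ω x) ∂μ =
        ∫ x, ((1 / 2 + 2 / Real.pi) - (8 / Real.pi) * GI (Ω x)) ∂μ := by
      rw [integral_sub (integrable_const _) ((hGi μ).const_mul _), integral_const_mul]
      simp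
    rw [e]
    refine integral_mono (hIi μ) ((integrable_const _).sub ((hGi μ).const_mul _)) fun x => ?_
    rw [← hind x]
    exact gi_lower (hΩb x).1 (hΩb x).2
  set f : (ι → ℝ) → ℝ := fun x =>
      eval x (VP d ρ p) / ((eval x p) ^ 2 + eval x (VP d ρ p)) with hf
  have hfm : Measurable f := by
    have h1 := eval_measurable p
    have h2 := eval_measurable (VP d ρ p)
    simp only [hf]; fun_prop
  have hf0 : ∀ x, 0 ≤ f x := fun x =>
    div_nonneg (hV0 x) (add_nonneg (sq_nonneg _) (hV0 x))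
  have hf1 : ∀ x, f x ≤ 1 := fun x => by
    have h0 := hV0 x
    apply div_le_one_of_le₀
    · nlinarith [sq_nonneg (eval x p)]
    · nlinarith [sq_nonneg (eval x p)]
  have hfi : Integrable f (gam ι) := by
    refine Integrable.of_bound (C := 1) hfm.aestronglyMeasurable
      (Filter.Eventually.of_forall fun x => ?_)
    rw [Real.norm_of_nonneg (hf0 x)]; exact hf1 x
  have hae : ∀ᵐ x ∂(gam ι), eval x p ≠ 0 := by
    rw [ae_iff]
    have h1 : (gam ι) {x | eval x p = 0} = 0 := by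
      rw [measureReal_def, ENNReal.toReal_eq_zero_iff] at hnull
      rcases hnull with h | h
      · exact h
      · exact absurd h (measure_ne_top _ _)
    simpa using h1
  have hlower : (1 / 2 + 2 / Real.pi) - (8 / Real.pi) * ∫ x, GI (Ω x) ∂(gam ι) ≤
      (gam ι).real {x | 0 ≤ eval x p} + 3 * a := by
    rw [← hIe (gam ι)]
    have e : (1 / 2 + 2 / Real.pi) - (8 / Real.pi) * ∫ x, GI (Ω x) ∂(gam ι) =
        ∫ x, ((1 / 2 + 2 / Real.pi) - (8 / Real.pi) * GI (Ω x)) ∂(gam ι) := by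
      rw [integral_sub (integrable_const _) ((hGi (gam ι)).const_mul _), integral_const_mul]
      simp
    have e2 : ∫ x, {x : ι → ℝ | 0 ≤ eval x p}.indicator (fun _ => (1 : ℝ)) x ∂(gam ι) + 3 * a =
        ∫ x, ({x : ι → ℝ | 0 ≤ eval x p}.indicator (fun _ => (1 : ℝ)) x + 3 * f x) ∂(gam ι) := by
      rw [integral_add (hIi (gam ι)) (hfi.const_mul _), integral_const_mul]
    rw [e, e2]
    refine integral_mono_ae ((integrable_const _).sub ((hGi (gam ι)).const_mul _))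
      ((hIi (gam ι)).add (hfi.const_mul _)) ?_
    filter_upwards [hae] with x hx
    rw [← hind x]
    have h1 := gi_upper (hΩb x).1 (hΩb x).2
    have h2 : 1 - (Ω x) ^ 2 = f x := by
      have h3 : 0 < (eval x p) ^ 2 + eval x (VP d ρ p) := by
        have h4 : 0 < (eval x p) ^ 2 := by positivity
        have h5 := hV0 x
        linarith
      simp only [hΩ, hf, div_pow]
      rw [Real.sq_sqrt h3.le]
      field_simp
      ring
    rw [h2] at h1
    exact h1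
  have hac := ac_jet hd hρ p hp
  have ha' : a ≤ 138240 * d * ρ := hac
  have ha0 : 0 ≤ a := integral_nonneg hf0
  have hfin : 173 * a ≤ (1 / 2) ^ Q := by
    have hd0 : (0 : ℝ) < d := by exact_mod_cast hd
    have e : 138240 * d * ρ = 138240 / 2 ^ 25 * (1 / 2) ^ Q := by
      rw [hρd, hR]; push_cast
      rw [pow_add, one_div_pow]
      field_simp
    rw [e] at ha'
    have h2 : (0 : ℝ) < (1 / 2) ^ Q := by positivity
    calc 173 * a ≤ 173 * (138240 / 2 ^ 25 * (1 / 2) ^ Q) := by linarith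
      _ = (173 * 138240 / 2 ^ 25) * (1 / 2) ^ Q := by ring
      _ ≤ 1 * (1 / 2) ^ Q := by
          apply mul_le_mul_of_nonneg_right _ h2.le
          norm_num
      _ = _ := one_mul _
  have h8 : 8 / Real.pi * (266 * ((1 / 4) * a)) ≤ 170 * a := by
    have h9 : 8 / Real.pi ≤ 8 / 3.14 := by
      apply div_le_div_of_nonneg_left (by norm_num) (by norm_num) Real.pi_gt_d2.le
    calc 8 / Real.pi * (266 * ((1 / 4) * a)) ≤ 8 / 3.14 * (266 * ((1 / 4) * a)) := by gcongr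
      _ = (8 / 3.14 * 266 / 4) * a := by ring
      _ ≤ 170 * a := by
          apply mul_le_mul_of_nonneg_right _ ha0
          norm_num
  have h10 : 8 / Real.pi * (∫ x, GI (Ω x) ∂(gam ι) - 266 * ((1 / 4) * a)) ≤
      8 / Real.pi * ∫ x, GI (Ω x) ∂μ := by gcongr
  rw [mul_sub] at h10
  linarith

end Aux3

end Pool.Agent.KWG
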