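import Pool.Agent.Lib.MP_68391b_lc.Sq.SPsi

/-! Weighted bound for the cosine multiplier. -/

set_option linter.unusedSectionVars false

namespace Pool.Agent.KWG

open MeasureTheory ProbabilityTheory MvPolynomial Pool.Agent.KWI

variable {ι : Type} [Fintype ι] [DecidableEq ι]

/-- the weighted bilinear form -/
private noncomputable def jwwaveBf (B p q : MvPolynomial ι ℝ) : ℝ :=
  ∫ x, eval x p * eval x q / (eval x B) ^ 2 ∂(gam ι)

private theorem jwwave_int2 {B : MvPolynomial ι ℝ} {w₂ : ℝ} (hw : 0 < w₂) (hB : ∀ x, w₂ ≤ eval x B)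
    (p q : MvPolynomial ι ℝ) :
    Integrable (fun x : ι → ℝ => eval x p * eval x q / (eval x B) ^ 2) (gam ι) := by
  have := div_integrable hw hB (p * q) 2
  simpa using this

private theorem jwwave_bf_symm (B p q : MvPolynomial ι ℝ) : jwwaveBf B p q = jwwaveBf B q p := by
  unfold jwwaveBf
  congr 1; funext x; ring

private theorem jwwave_wn (B p : MvPolynomial ι ℝ) : wn B p = jwwaveBf B p p := by
  unfold wn jwwaveBf
  congr 1; funext x; ring

private theorem jwwave_bf_sum {B : MvPolynomial ι ℝ} {w₂ : ℝ} (hw : 0 < w₂)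
    (hB : ∀ x, w₂ ≤ eval x B) {κ : Type} (s : Finset κ) (a b : κ → ℝ)
    (P : κ → MvPolynomial ι ℝ) :
    jwwaveBf B (∑ k ∈ s, C (a k) * P k) (∑ l ∈ s, C (b l) * P l) =
      ∑ k ∈ s, ∑ l ∈ s, a k * b l * jwwaveBf B (P k) (P l) := by
  unfold jwwaveBf
  have h1 : ∀ x : ι → ℝ, eval x (∑ k ∈ s, C (a k) * P k) * eval x (∑ l ∈ s, C (b l) * P l) /
      (eval x B) ^ 2 = ∑ k ∈ s, ∑ l ∈ s, a k * b l *
        (eval x (P k) * eval x (P l) / (eval x B) ^ 2) := by
    intro x
    simp only [map_sum, map_mul, eval_C, Finset.sum_mul_sum, Finset.sum_div]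
    refine Finset.sum_congr rfl fun k _ => Finset.sum_congr rfl fun l _ => ?_
    ring
  simp only [h1]
  rw [integral_finsetSum]
  · refine Finset.sum_congr rfl fun k _ => ?_
    rw [integral_finsetSum]
    · refine Finset.sum_congr rfl fun l _ => ?_
      rw [integral_const_mul]
    · intro l _
      exact (jwwave_int2 hw hB _ _).const_mul _
  · intro k _
    apply integrable_finsetSum
    intro l _
    exact (jwwave_int2 hw hB _ _).const_mul _

private theorem jwwave_deriv {B : MvPolynomial ι ℝ} {w₂ : ℝ} (hw : 0 < w₂)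
    (hB : ∀ x, w₂ ≤ eval x B) {κ : Type} (s : Finset κ) (a : ℝ → κ → ℝ) (a' : κ → ℝ) (t : ℝ)
    (ha : ∀ k ∈ s, HasDerivAt (fun r => a r k) (a' k) t) (P : κ → MvPolynomial ι ℝ) :
    HasDerivAt (fun r => wn B (∑ k ∈ s, C (a r k) * P k))
      (2 * jwwaveBf B (∑ k ∈ s, C (a t k) * P k) (∑ k ∈ s, C (a' k) * P k)) t := by
  have h1 : (fun r => wn B (∑ k ∈ s, C (a r k) * P k)) =
      fun r => ∑ k ∈ s, ∑ l ∈ s, a r k * a r l * jwwaveBf B (P k) (P l) := by
    funext r
    rw [jwwave_wn, jwwave_bf_sum hw hB]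
  rw [h1]
  have h2 : 2 * jwwaveBf B (∑ k ∈ s, C (a t k) * P k) (∑ k ∈ s, C (a' k) * P k) =
      ∑ k ∈ s, ∑ l ∈ s, (a' k * a t l + a t k * a' l) * jwwaveBf B (P k) (P l) := by
    have h3 := jwwave_bf_sum hw hB s (a t) a' P
    have h4 := jwwave_bf_sum hw hB s a' (a t) P
    rw [jwwave_bf_symm] at h4
    rw [two_mul]
    nth_rewrite 1 [h4]
    rw [h3, ← Finset.sum_add_distrib]
    refine Finset.sum_congr rfl fun k _ => ?_
    rw [← Finset.sum_add_distrib]
    refine Finset.sum_congr rfl fun l _ => ?_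
    ring
  rw [h2]
  apply HasDerivAt.fun_sum
  intro k hk
  apply HasDerivAt.fun_sum
  intro l hl
  exact ((ha k hk).mul (ha l hl)).mul_const _

/-- the component of `g` in level `k` -/
private noncomputable def jwwaveP (g : MvPolynomial ι ℝ) (k : ℕ) : MvPolynomial ι ℝ :=
  ∑ α ∈ lev ι k, C (hc g α) * hp α

private theorem jwwave_mu (N : ℕ) (ψ : ℕ → ℝ) (g : MvPolynomial ι ℝ) :
    Mu N ψ g = ∑ k ∈ Finset.range (N + 1), C (ψ k) * jwwaveP g k := by
  unfold Mu jwwaveP
  refine Finset.sum_congr rfl fun k _ => ?_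
  rw [Finset.mul_sum]
  refine Finset.sum_congr rfl fun α _ => ?_
  rw [C_mul]; ring

private theorem jwwave_mu_pderiv (N : ℕ) (ψ : ℕ → ℝ) (g : MvPolynomial ι ℝ) (j : ι) :
    pderiv j (Mu N ψ g) = ∑ k ∈ Finset.range (N + 1), C (ψ k) * pderiv j (jwwaveP g k) := by
  rw [jwwave_mu, map_sum]
  refine Finset.sum_congr rfl fun k _ => ?_
  rw [Derivation.leibniz]
  simp

private theorem jwwave_Sv_deriv (t : ℝ) (k : ℕ) :
    HasDerivAt (fun r => Sv r k) (Real.cos (t * √k)) t := by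
  unfold Sv
  by_cases hk : k = 0
  · subst hk
    simp only [if_true]
    have h1 : HasDerivAt (fun r : ℝ => r) 1 t := hasDerivAt_id' t
    simpa using h1
  · simp only [hk, if_false]
    have h0 : 0 < √(k : ℝ) := Real.sqrt_pos.mpr (by exact_mod_cast Nat.pos_of_ne_zero hk)
    have h1 : HasDerivAt (fun r : ℝ => r * √(k : ℝ)) (√(k : ℝ)) t := by
      simpa using (hasDerivAt_id t).mul_const (√(k : ℝ))
    have h2 := (h1.sin).div_const (√(k : ℝ))
    have h3 : Real.cos (t * √(k : ℝ)) * √(k : ℝ) / √(k : ℝ) = Real.cos (t * √(k : ℝ)) := by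
      field_simp
    rw [h3] at h2
    exact h2

private theorem jwwave_Cv_deriv (t : ℝ) (k : ℕ) :
    HasDerivAt (fun r => Real.cos (r * √(k : ℝ))) (-((k : ℝ) * Sv t k)) t := by
  have h1 : HasDerivAt (fun r : ℝ => r * √(k : ℝ)) (√(k : ℝ)) t := by
    simpa using (hasDerivAt_id t).mul_const (√(k : ℝ))
  have h2 := h1.cos
  have h3 : -Real.sin (t * √(k : ℝ)) * √(k : ℝ) = -((k : ℝ) * Sv t k) := by
    unfold Sv
    by_cases hk : k = 0
    · subst hk; simp
    · simp only [hk, if_false]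
      have h0 : 0 < √(k : ℝ) := Real.sqrt_pos.mpr (by exact_mod_cast Nat.pos_of_ne_zero hk)
      have h4 : (k : ℝ) = √(k : ℝ) * √(k : ℝ) := (Real.mul_self_sqrt (Nat.cast_nonneg k)).symm
      rw [eq_comm]
      calc -((k : ℝ) * (Real.sin (t * √(k : ℝ)) / √(k : ℝ))) =
          -((√(k : ℝ) * √(k : ℝ)) * (Real.sin (t * √(k : ℝ)) / √(k : ℝ))) := by rw [← h4]
        _ = -Real.sin (t * √(k : ℝ)) * √(k : ℝ) := by field_simp
  rw [h3] at h2
  exact h2

/-- the energy -/
private noncomputable def jwwaveE (B : MvPolynomial ι ℝ) (N : ℕ) (g : MvPolynomial ι ℝ) (t : ℝ) : ℝ :=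
  wn B (Mu N (fun k => Real.cos (t * √(k : ℝ))) g) + ∑ j, wn B (pderiv j (Mu N (Sv t) g))

private theorem jwwave_E_deriv {B : MvPolynomial ι ℝ} {w₂ : ℝ} (hw : 0 < w₂)
    (hB : ∀ x, w₂ ≤ eval x B) (N : ℕ) (g : MvPolynomial ι ℝ) (t : ℝ) :
    HasDerivAt (jwwaveE B N g)
      (2 * jwwaveBf B (Mu N (fun k => Real.cos (t * √(k : ℝ))) g)
          (Mu N (fun k => -((k : ℝ) * Sv t k)) g) +
        ∑ j, 2 * jwwaveBf B (pderiv j (Mu N (Sv t) g))
          (pderiv j (Mu N (fun k => Real.cos (t * √(k : ℝ))) g))) t := by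
  unfold jwwaveE
  apply HasDerivAt.add
  · have h1 := jwwave_deriv hw hB (Finset.range (N + 1)) (fun r k => Real.cos (r * √(k : ℝ)))
      (fun k => -((k : ℝ) * Sv t k)) t (fun k _ => jwwave_Cv_deriv t k) (jwwaveP g)
    simpa only [← jwwave_mu] using h1
  · apply HasDerivAt.fun_sum
    intro j _
    have h1 := jwwave_deriv hw hB (Finset.range (N + 1)) (fun r k => Sv r k)
      (fun k => Real.cos (t * √(k : ℝ))) t (fun k _ => jwwave_Sv_deriv t k)
      (fun k => pderiv j (jwwaveP g k))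
    simpa only [← jwwave_mu_pderiv] using h1

private theorem jwwave_pointwise {K b u1 S G : ℝ} (hK : 0 ≤ K) (hb : 0 < b) (hG : 0 ≤ G)
    (hS : S ^ 2 ≤ G * (K ^ 2 * b ^ 2)) :
    4 * (u1 * S / b ^ 3) ≤ 2 * K * ((u1 ^ 2 + G) / b ^ 2) := by
  have h1 : |S| ≤ √G * (K * b) := by
    have h2 := Real.abs_le_sqrt hS
    have h3 : √(G * (K ^ 2 * b ^ 2)) = √G * (K * b) := by
      rw [Real.sqrt_mul hG, ← mul_pow, Real.sqrt_sq (by positivity)]
    rwa [h3] at h2
  have hG2 : √G ^ 2 = G := Real.sq_sqrt hG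
  have h4 : 2 * (u1 * S) ≤ K * b * (u1 ^ 2 + G) := by
    have h5 : u1 * S ≤ |u1| * |S| := by rw [← abs_mul]; exact le_abs_self _
    have h6 : |u1| * |S| ≤ |u1| * (√G * (K * b)) := mul_le_mul_of_nonneg_left h1 (abs_nonneg _)
    have h7 : 2 * (|u1| * √G) ≤ u1 ^ 2 + G := by
      have h8 := two_mul_le_add_sq |u1| √G
      rw [sq_abs, hG2] at h8
      linarith
    have h9 : 2 * (|u1| * (√G * (K * b))) ≤ K * b * (u1 ^ 2 + G) := by
      have h10 := mul_le_mul_of_nonneg_left h7 (mul_nonneg hK hb.le)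
      calc 2 * (|u1| * (√G * (K * b))) = K * b * (2 * (|u1| * √G)) := by ring
        _ ≤ _ := h10
    linarith
  have h11 : 4 * (u1 * S / b ^ 3) = (2 * (2 * (u1 * S))) / b ^ 3 := by ring
  have h12 : 2 * K * ((u1 ^ 2 + G) / b ^ 2) = (2 * (K * b * (u1 ^ 2 + G))) / b ^ 3 := by
    field_simp
  rw [h11, h12]
  apply div_le_div_of_nonneg_right _ (by positivity)
  linarith

private theorem jwwave_E_le {B : MvPolynomial ι ℝ} {w₂ : ℝ} (hw : 0 < w₂)
    (hB : ∀ x, w₂ ≤ eval x B) {K : ℝ} (hK : 0 ≤ K)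
    (hgrad : ∀ x, ∑ j, (eval x (pderiv j B)) ^ 2 ≤ K ^ 2 * (eval x B) ^ 2)
    (N : ℕ) (g : MvPolynomial ι ℝ) (t : ℝ) :
    (2 * jwwaveBf B (Mu N (fun k => Real.cos (t * √(k : ℝ))) g)
          (Mu N (fun k => -((k : ℝ) * Sv t k)) g) +
        ∑ j, 2 * jwwaveBf B (pderiv j (Mu N (Sv t) g))
          (pderiv j (Mu N (fun k => Real.cos (t * √(k : ℝ))) g))) ≤ 2 * K * jwwaveE B N g t := by
  unfold jwwaveE
  have hu : Mu N (fun k => -((k : ℝ) * Sv t k)) g =
      -(∑ j, (X j * pderiv j (Mu N (Sv t) g) - pderiv j (pderiv j (Mu N (Sv t) g)))) := by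
    rw [mu_number (mu_degree N (Sv t) g), mu_comp]
    rw [jwwave_mu, jwwave_mu, ← Finset.sum_neg_distrib]
    refine Finset.sum_congr rfl fun k _ => ?_
    simp
  rw [hu]
  generalize Mu N (Sv t) g = u
  generalize Mu N (fun k => Real.cos (t * √(k : ℝ))) g = v
  have hwf := weight_form hw hB v u
  have hneg : jwwaveBf B v (-(∑ j, (X j * pderiv j u - pderiv j (pderiv j u)))) =
      -(∫ x, eval x v * eval x (∑ j, (X j * pderiv j u - pderiv j (pderiv j u))) /
        (eval x B) ^ 2 ∂(gam ι)) := by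
    unfold jwwaveBf
    rw [← integral_neg]
    congr 1; funext x
    rw [map_neg]; ring
  have hsum : ∫ x, (∑ j, eval x (pderiv j v) * eval x (pderiv j u)) / (eval x B) ^ 2 ∂(gam ι) =
      ∑ j, jwwaveBf B (pderiv j u) (pderiv j v) := by
    unfold jwwaveBf
    rw [← integral_finsetSum]
    · congr 1; funext x
      rw [Finset.sum_div]
      refine Finset.sum_congr rfl fun j _ => ?_
      ring
    · intro j _
      exact jwwave_int2 hw hB _ _
  rw [hneg, hwf, hsum, ← Finset.mul_sum]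
  have hS : Integrable (fun x : ι → ℝ => eval x v * (∑ j, eval x (pderiv j u) *
      eval x (pderiv j B)) / (eval x B) ^ 3) (gam ι) := by
    have := div_integrable hw hB (v * ∑ j, pderiv j u * pderiv j B) 3
    simpa using this
  have hI1 : Integrable (fun x : ι → ℝ => ((eval x v) ^ 2 + ∑ j, (eval x (pderiv j u)) ^ 2) /
      (eval x B) ^ 2) (gam ι) := by
    have := div_integrable hw hB (v ^ 2 + ∑ j, (pderiv j u) ^ 2) 2
    simpa using this
  have hE : wn B v + ∑ j, wn B (pderiv j u) =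
      ∫ x, ((eval x v) ^ 2 + ∑ j, (eval x (pderiv j u)) ^ 2) / (eval x B) ^ 2 ∂(gam ι) := by
    unfold wn
    rw [← integral_finsetSum _ (fun j _ => wn_integrable hw hB _), ← integral_add
      (wn_integrable hw hB _) (integrable_finsetSum _ (fun j _ => wn_integrable hw hB _))]
    congr 1; funext x
    rw [add_div, Finset.sum_div]
  rw [hE]
  have hfin : 4 * ∫ x, eval x v * (∑ j, eval x (pderiv j u) * eval x (pderiv j B)) /
        (eval x B) ^ 3 ∂(gam ι) ≤
      2 * K * ∫ x, ((eval x v) ^ 2 + ∑ j, (eval x (pderiv j u)) ^ 2) / (eval x B) ^ 2 ∂(gam ι) := by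
    rw [← integral_const_mul, ← integral_const_mul]
    apply integral_mono (hS.const_mul _) (hI1.const_mul _)
    intro x
    apply jwwave_pointwise hK (lt_of_lt_of_le hw (hB x)) (Finset.sum_nonneg fun j _ => sq_nonneg _)
    have h1 := Finset.sum_mul_sq_le_sq_mul_sq Finset.univ (fun j => eval x (pderiv j u))
      (fun j => eval x (pderiv j B))
    exact h1.trans (mul_le_mul_of_nonneg_left (hgrad x) (Finset.sum_nonneg fun j _ => sq_nonneg _))
  linarith

private theorem jwwave_total {B : MvPolynomial ι ℝ} {w₂ : ℝ} (hw : 0 < w₂) (hB : ∀ x, w₂ ≤ eval x B)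
    {K : ℝ} (hK : 0 ≤ K)
    (hgrad : ∀ x, ∑ j, (eval x (pderiv j B)) ^ 2 ≤ K ^ 2 * (eval x B) ^ 2)
    (N : ℕ) (g : MvPolynomial ι ℝ) (hg : g.totalDegree ≤ N) {t : ℝ} (ht : 0 ≤ t) :
    jwwaveE B N g t ≤ Real.exp (2 * K * t) * wn B g := by
  have hE0 : jwwaveE B N g 0 = wn B g := by
    unfold jwwaveE
    have h1 : Mu N (fun k => Real.cos (0 * √(k : ℝ))) g = g := by
      rw [show (fun k : ℕ => Real.cos (0 * √(k : ℝ))) = fun _ => 1 by funext k; simp]
      exact mu_one hg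
    have h2 : Mu N (Sv 0) g = 0 := by
      rw [jwwave_mu]
      apply Finset.sum_eq_zero
      intro k _
      have : Sv 0 k = 0 := by unfold Sv; split_ifs <;> simp
      simp [this]
    rw [h1, h2]
    simp [wn]
  have hanti : AntitoneOn (fun r => jwwaveE B N g r * Real.exp (-(2 * K * r))) (Set.Icc 0 t) := by
    apply antitoneOn_of_deriv_nonpos (convex_Icc 0 t)
    · intro r _
      apply ContinuousAt.continuousWithinAt
      exact (jwwave_E_deriv hw hB N g r).continuousAt.mul (by fun_prop)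
    · intro r _
      apply DifferentiableAt.differentiableWithinAt
      exact (jwwave_E_deriv hw hB N g r).differentiableAt.mul (by fun_prop)
    · intro r _
      have h1 := jwwave_E_deriv hw hB N g r
      have h2 : HasDerivAt (fun r : ℝ => Real.exp (-(2 * K * r)))
          (Real.exp (-(2 * K * r)) * (-(2 * K))) r := by
        have h3 : HasDerivAt (fun r : ℝ => -(2 * K * r)) (-(2 * K)) r := by
          simpa using ((hasDerivAt_id' r).const_mul (2 * K)).fun_neg
        exact h3.exp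
      have h3 := (h1.mul h2).deriv
      have h4 := jwwave_E_le hw hB hK hgrad N g r
      have h5 : deriv (fun r => jwwaveE B N g r * Real.exp (-(2 * K * r))) r = _ := h3
      rw [h5]
      have h6 : 0 < Real.exp (-(2 * K * r)) := Real.exp_pos _
      nlinarith [mul_le_mul_of_nonneg_right h4 h6.le]
  have h7 := hanti (Set.left_mem_Icc.mpr ht) (Set.right_mem_Icc.mpr ht) ht
  simp only [mul_zero, neg_zero, Real.exp_zero, mul_one, hE0] at h7
  have h9 : jwwaveE B N g t = Real.exp (2 * K * t) * (jwwaveE B N g t * Real.exp (-(2 * K * t))) := by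
    rw [mul_comm (jwwaveE B N g t), ← mul_assoc, ← Real.exp_add]
    simp
  calc jwwaveE B N g t = Real.exp (2 * K * t) * (jwwaveE B N g t * Real.exp (-(2 * K * t))) := h9
    _ ≤ Real.exp (2 * K * t) * wn B g := mul_le_mul_of_nonneg_left h7 (Real.exp_pos _).le

/-- The cosine multiplier in the weighted space. -/
theorem wave_cosw {B : MvPolynomial ι ℝ} {w₂ : ℝ} (hw : 0 < w₂) (hB : ∀ x, w₂ ≤ eval x B)
    {K : ℝ} (hK : 0 ≤ K)
    (hgrad : ∀ x, ∑ j, (eval x (pderiv j B)) ^ 2 ≤ K ^ 2 * (eval x B) ^ 2)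
    (N : ℕ) (g : MvPolynomial ι ℝ) (hg : g.totalDegree ≤ N) {t : ℝ} (ht : 0 ≤ t) :
    wn B (Mu N (fun k => Real.cos (t * √k)) g) ≤ Real.exp (2 * K * t) * wn B g := by
  have h1 := jwwave_total hw hB hK hgrad N g hg ht
  unfold jwwaveE at h1
  have h2 : 0 ≤ ∑ j, wn B (pderiv j (Mu N (Sv t) g)) :=
    Finset.sum_nonneg fun j _ => wn_nonneg _ _
  linarith

private theorem jwwave_nonneg (B P : MvPolynomial ι ℝ) : 0 ≤ jwwaveBf B P P := by
  rw [← jwwave_wn]
  exact wn_nonneg _ _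

private theorem jwwave_lin {B : MvPolynomial ι ℝ} {w₂ : ℝ} (hw : 0 < w₂)
    (hB : ∀ x, w₂ ≤ eval x B) (P : MvPolynomial ι ℝ) {κ : Type} (s : Finset κ) (c : κ → ℝ)
    (Q : κ → MvPolynomial ι ℝ) :
    jwwaveBf B P (∑ k ∈ s, C (c k) * Q k) = ∑ k ∈ s, c k * jwwaveBf B P (Q k) := by
  unfold jwwaveBf
  have h1 : ∀ x : ι → ℝ, eval x P * eval x (∑ k ∈ s, C (c k) * Q k) / (eval x B) ^ 2 =
      ∑ k ∈ s, c k * (eval x P * eval x (Q k) / (eval x B) ^ 2) := by
    intro x
    rw [map_sum, Finset.mul_sum, Finset.sum_div]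
    refine Finset.sum_congr rfl fun k _ => ?_
    rw [map_mul, eval_C]
    ring
  simp only [h1]
  rw [integral_finsetSum]
  · refine Finset.sum_congr rfl fun k _ => ?_
    rw [integral_const_mul]
  · intro k _
    exact (jwwave_int2 hw hB _ _).const_mul _

private theorem jwwave_cs {B : MvPolynomial ι ℝ} {w₂ : ℝ} (hw : 0 < w₂)
    (hB : ∀ x, w₂ ≤ eval x B) (P Q : MvPolynomial ι ℝ) :
    |jwwaveBf B P Q| ≤ √(jwwaveBf B P P) * √(jwwaveBf B Q Q) := by
  have h2 : ∀ (S : MvPolynomial ι ℝ) (r : ℝ), jwwaveBf B S (P + C r * Q) =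
      jwwaveBf B S P + r * jwwaveBf B S Q := by
    intro S r
    have := jwwave_lin hw hB S (Finset.univ : Finset (Fin 2)) ![1, r] ![P, Q]
    simpa using this
  have h3 : ∀ r : ℝ, 0 ≤ jwwaveBf B Q Q * (r * r) + 2 * jwwaveBf B P Q * r + jwwaveBf B P P := by
    intro r
    have h4 := jwwave_nonneg B (P + C r * Q)
    rw [h2, jwwave_bf_symm B _ P, h2, jwwave_bf_symm B (P + C r * Q) Q, h2,
      jwwave_bf_symm B Q P] at h4
    linarith
  have h5 := discrim_le_zero h3
  unfold discrim at h5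
  rw [← Real.sqrt_mul (jwwave_nonneg B P)]
  apply Real.abs_le_sqrt
  nlinarith

/-- A cosine sum in the weighted space. -/
theorem wave_sum {B : MvPolynomial ι ℝ} {w₂ : ℝ} (hw : 0 < w₂) (hB : ∀ x, w₂ ≤ eval x B)
    {K : ℝ} (hK : 0 ≤ K)
    (hgrad : ∀ x, ∑ j, (eval x (pderiv j B)) ^ 2 ≤ K ^ 2 * (eval x B) ^ 2)
    {n : ℕ} (c t : Fin n → ℝ) (ht : ∀ i, 0 ≤ t i)
    (N : ℕ) (g : MvPolynomial ι ℝ) (hg : g.totalDegree ≤ N) :
    wn B (Mu N (fun k => ∑ i, c i * Real.cos (t i * √k)) g) ≤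
      (∑ i, |c i| * Real.exp (K * t i)) ^ 2 * wn B g := by
  set P : Fin n → MvPolynomial ι ℝ :=
    fun i => Mu N (fun k : ℕ => Real.cos (t i * √k)) g with hP
  have h2 : Mu N (fun k => ∑ i, c i * Real.cos (t i * √k)) g = ∑ i, C (c i) * P i :=
    mu_sum N c (fun i k => Real.cos (t i * √k)) g
  set S := Mu N (fun k => ∑ i, c i * Real.cos (t i * √k)) g with hS
  rw [jwwave_wn]
  have h3 : jwwaveBf B S S = ∑ i, c i * jwwaveBf B S (P i) := by
    conv_lhs => rw [h2]
    rw [jwwave_lin hw hB, ← h2]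
  have h4 : jwwaveBf B S S ≤ (∑ i, |c i| * Real.exp (K * t i)) * √(wn B g) *
      √(jwwaveBf B S S) := by
    conv_lhs => rw [h3]
    rw [Finset.sum_mul, Finset.sum_mul]
    refine Finset.sum_le_sum fun i _ => ?_
    refine (le_abs_self _).trans ?_
    rw [abs_mul, mul_assoc, mul_assoc]
    refine mul_le_mul_of_nonneg_left ?_ (abs_nonneg _)
    refine (jwwave_cs hw hB _ _).trans ?_
    rw [mul_comm (√(jwwaveBf B S S)), ← mul_assoc]
    refine mul_le_mul_of_nonneg_right ?_ (Real.sqrt_nonneg _)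
    rw [← jwwave_wn]
    have h5 := wave_cosw hw hB hK hgrad N g hg (ht i)
    refine (Real.sqrt_le_sqrt h5).trans (le_of_eq ?_)
    have h6 : Real.exp (2 * K * t i) * wn B g = (Real.exp (K * t i)) ^ 2 * wn B g := by
      rw [← Real.exp_nat_mul]
      congr 2
      push_cast
      ring
    rw [h6, Real.sqrt_mul (by positivity), Real.sqrt_sq (Real.exp_pos _).le]
  have h8 : 0 ≤ ∑ i, |c i| * Real.exp (K * t i) :=
    Finset.sum_nonneg fun i _ => mul_nonneg (abs_nonneg _) (Real.exp_pos _).le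
  refine (psi_final (jwwave_nonneg _ _) (mul_nonneg h8 (Real.sqrt_nonneg _)) h4).trans
    (le_of_eq ?_)
  rw [mul_pow, Real.sq_sqrt (wn_nonneg _ _)]

end Pool.Agent.KWG
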